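import Mathlib
import Pool.Agent.Lib.MP_fe8e9b_al_V.Defs
import Pool.Agent.Lib.MP_fe8e9b_al_W.Perf

/-!
# MP_fe8e9b_al, iterated wreath products over all transitive actions: definitions
-/

set_option autoImplicit false

open scoped BigOperators

namespace Pool.Agent.MPfe8e9bU

open Pool.Agent.MPfe8e9b Pool.Agent.MPfe8e9bA Pool.Agent.MPfe8e9bW Pool.Agent.MPfe8e9bV

/-- Products of `m` commutators. -/
def CP {G : Type} [Group G] (m : ℕ) (g : G) : Prop :=
  ∃ u w : Fin m → G, g = (List.ofFn fun i => cm (u i) (w i)).prod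

/-- Every element is a product of `m` commutators. -/
def Wd (m : ℕ) (G : Type) [Group G] : Prop := ∀ g : G, CP m g

/-- Transitive actions. -/
def Tr {P I : Type} [Group P] {X : I → Type} (α : ∀ i, P →* Equiv.Perm (X i)) : Prop :=
  ∀ i, ∀ x y : X i, ∃ p, α i p x = y

theorem Tr.ind {P I : Type} [Group P] [Subsingleton I] {X : I → Type}
    {α : ∀ i, P →* Equiv.Perm (X i)} (h : Tr α) : Ind α := by
  intro i x y
  obtain ⟨p, hp⟩ := h i x y
  exact ⟨p, fun j hj => absurd (Subsingleton.elim j i) hj, hp⟩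

/-- The groups which are obtained in at most `h` steps; the families have at most one member. -/
inductive Tw (k m : ℕ) (κ : ℝ) : ℕ → (G : Type) → Group G → Prop
  | base (h : ℕ) (G : Type) (inst : Group G) (hG : PE k κ G) (hw : Wd m G) : Tw k m κ h G inst
  | step (h : ℕ) (P : Type) (instP : Group P) (hP : PE k κ P) (hw : Wd m P) (I : Type)
      (hI : Subsingleton I) (X : I → Type) (hX : ∀ i, Finite (X i))
      (h2 : ∀ i, 2 ≤ Nat.card (X i)) (α : ∀ i, P →* Equiv.Perm (X i)) (hα : Tr α)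
      (G : I → Type) (instG : ∀ i, Group (G i)) (hG : ∀ i, Tw k m κ h (G i) (instG i)) :
      Tw k m κ (h + 1) (Wr α G) inferInstance
  | iso (h : ℕ) (G H : Type) (instG : Group G) (instH : Group H) (e : G ≃* H)
      (hG : Tw k m κ h G instG) : Tw k m κ h H instH

/-- Families of pairs of vectors which encode a sparse vector of density `θ` with the letters
`y 0, …, y (q - 1)`, products of `M` commutators. -/
def LvlM {K X : Type} [Group K] [Fintype K] [Fintype X] (α : K →* Equiv.Perm X) {G : Type}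
    [Group G] {q M : ℕ} (y : Fin q → G) (θ : ℝ) (z z' : Fin M → X → G) : Prop :=
  ∃ (h : K) (U : Finset X) (l : X → Fin q),
    (∀ x, x ∈ U → (List.ofFn fun i => cm (z i x) (z' i ((α h)⁻¹ x))).prod = y (l x)) ∧
    (∀ x, x ∉ U → ∀ i, cm (z i x) (z' i ((α h)⁻¹ x)) = 1) ∧
    (∀ m : Fin q, θ / (2 * q) ≤ mn (fun x => ind (x ∈ U ∧ l x = m))) ∧
    ∀ x x' : X, x ≠ x' →
      mn (fun σ : K => ind ((α σ)⁻¹ x ∈ U ∧ (α σ)⁻¹ x' ∈ U)) ≤ 2 * θ ^ 2

/-- The index type of the vectors: two single ones and two levels of `M` pairs. -/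
abbrev TI (M : ℕ) : Type := Bool ⊕ ((Bool × Fin 2) × Fin M)

/-- Vectors with all the properties: `Y (inl false)` is equidistributed, `Y (inl true)` is dense,
and `Y (inr ((false, e), j))`, `Y (inr ((true, e), j))` are the pairs of the level `e`. -/
def GoodM {K X : Type} [Group K] [Fintype K] [Fintype X] (α : K →* Equiv.Perm X) {G : Type}
    [Group G] [Fintype G] (D M : ℕ) (Y : TI M → X → G) : Prop :=
  ∃ (q w : ℕ) (y : Fin q → G), 0 < q ∧ Mix y (1 / 100) ∧ Frq y (Y (Sum.inl false)) ∧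
    Dns α y w (Y (Sum.inl true)) ∧ ∀ a : ℕ, w < 32 ^ (a + 1) → 32 ^ a ≤ Fintype.card X →
      ∃ e : Fin 2, LvlM α y (1 / ((D : ℝ) * 2 ^ a))
        (fun j => Y (Sum.inr ((false, e), j))) (fun j => Y (Sum.inr ((true, e), j)))

end Pool.Agent.MPfe8e9bU
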