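import Mathlib
import Pool.Agent.Lib.MP_fe8e9b_al_V.Lv1

/-!
# MP_fe8e9b_al, iterated wreath products over all transitive actions: the numerical union bound,
polynomial form -/

set_option autoImplicit false

open scoped BigOperators

namespace Pool.Agent.MPfe8e9bU

open Pool.Agent.MPfe8e9b Pool.Agent.MPfe8e9bA Pool.Agent.MPfe8e9bW Pool.Agent.MPfe8e9bV

theorem lv1b_exp {x : ℝ} (hx : 0 < x) :
    Real.exp (-x) ≤ (Nat.factorial 20 : ℝ) / x ^ 20 := by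
  have h := Real.pow_div_factorial_le_exp x hx.le 20
  have h0 : (0 : ℝ) < x ^ 20 / (Nat.factorial 20 : ℝ) := by positivity
  rw [Real.exp_neg, ← inv_div]
  exact inv_anti₀ h0 h

theorem lv1b_sq {n m S : ℕ} (hn : 40 ≤ n) (hm : m ^ 5 ≤ n) (hS : S ≤ m) :
    10 * S ^ 2 ≤ n := by
  have h1 : S ^ 2 ≤ m ^ 2 := Nat.pow_le_pow_left hS 2
  rcases Nat.lt_or_ge m 3 with h3 | h3
  · have h4 : m ^ 2 ≤ 2 ^ 2 := Nat.pow_le_pow_left (by omega) 2
    linarith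
  · have h4 : 3 ^ 3 ≤ m ^ 3 := Nat.pow_le_pow_left h3 3
    have h5 : 10 * m ^ 2 ≤ m ^ 5 := by
      calc 10 * m ^ 2 ≤ m ^ 3 * m ^ 2 := Nat.mul_le_mul_right _ (by linarith)
        _ = m ^ 5 := by ring
    linarith

theorem lv1b_num {D r n m S c K : ℝ} (hD : 0 < D) (hr : 0 < r) (hn : 1 ≤ n) (hm : 1 ≤ m)
    (hm5 : m ^ 5 ≤ n) (hS : 0 < S) (hSm : S ≤ m) (hc0 : 0 < c)
    (hc1 : c ≤ 1 / (25 * D ^ 2 * r ^ 2)) (hc2 : c ≤ 1 / (8 * D ^ 4))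
    (hK : K = (Nat.factorial 20 : ℝ) / c ^ 20) (hnK : (r + 1) * K < n) :
    S * (r * Real.exp (-(n * (1 / (D * m * r)) ^ 2 / (25 * S ^ 2))) +
      n ^ 2 * Real.exp (-(n * (1 / (D * m)) ^ 4 / 8))) < 1 := by
  have hn0 : 0 < n := by linarith
  have hm0 : 0 < m := by linarith
  have hK0 : 0 < K := by
    rw [hK]
    positivity
  have hmn : S ≤ n := by
    refine hSm.trans (le_trans ?_ hm5)
    calc m = m ^ 1 := (pow_one m).symm
      _ ≤ m ^ 5 := pow_le_pow_right₀ hm (by norm_num)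
  obtain ⟨x, hx⟩ : ∃ x : ℝ, x = c * n / m ^ 4 := ⟨_, rfl⟩
  have hx0 : 0 < x := by
    rw [hx]
    positivity
  have hA : x ≤ n * (1 / (D * m * r)) ^ 2 / (25 * S ^ 2) := by
    have e : n * (1 / (D * m * r)) ^ 2 / (25 * S ^ 2) =
        (1 / (25 * D ^ 2 * r ^ 2)) * n / (m ^ 2 * S ^ 2) := by
      field_simp
    have h4 : m ^ 2 * S ^ 2 ≤ m ^ 4 := by
      have h5 : S ^ 2 ≤ m ^ 2 := pow_le_pow_left₀ hS.le hSm 2
      calc m ^ 2 * S ^ 2 ≤ m ^ 2 * m ^ 2 := mul_le_mul_of_nonneg_left h5 (by positivity)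
        _ = m ^ 4 := by ring
    rw [e, hx]
    exact div_le_div₀ (by positivity) (mul_le_mul_of_nonneg_right hc1 hn0.le) (by positivity) h4
  have hB : x ≤ n * (1 / (D * m)) ^ 4 / 8 := by
    have e : n * (1 / (D * m)) ^ 4 / 8 = (1 / (8 * D ^ 4)) * n / m ^ 4 := by
      field_simp
    rw [e, hx]
    exact div_le_div_of_nonneg_right (mul_le_mul_of_nonneg_right hc2 hn0.le) (by positivity)
  have hE : Real.exp (-x) ≤ K / n ^ 4 := by
    refine (lv1b_exp hx0).trans ?_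
    have h80 : m ^ (4 * 20) ≤ n ^ 16 := by
      calc m ^ (4 * 20) = (m ^ 5) ^ 16 := by rw [← pow_mul]
        _ ≤ n ^ 16 := pow_le_pow_left₀ (by positivity) hm5 16
    have hx20 : c ^ 20 * n ^ 4 ≤ x ^ 20 := by
      rw [hx, div_pow, mul_pow, ← pow_mul, le_div_iff₀ (by positivity)]
      calc c ^ 20 * n ^ 4 * m ^ (4 * 20) ≤ c ^ 20 * n ^ 4 * n ^ 16 :=
            mul_le_mul_of_nonneg_left h80 (by positivity)
        _ = c ^ 20 * n ^ 20 := by ring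
    rw [hK, div_div]
    exact div_le_div_of_nonneg_left (by positivity) (by positivity) hx20
  have hEA : Real.exp (-(n * (1 / (D * m * r)) ^ 2 / (25 * S ^ 2))) ≤ K / n ^ 4 :=
    (Real.exp_le_exp.2 (neg_le_neg hA)).trans hE
  have hEB : Real.exp (-(n * (1 / (D * m)) ^ 4 / 8)) ≤ K / n ^ 4 :=
    (Real.exp_le_exp.2 (neg_le_neg hB)).trans hE
  have hKn : 0 ≤ K / n ^ 4 := by positivity
  have hsum : r * Real.exp (-(n * (1 / (D * m * r)) ^ 2 / (25 * S ^ 2))) +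
      n ^ 2 * Real.exp (-(n * (1 / (D * m)) ^ 4 / 8)) ≤ r * (K / n ^ 4) + n ^ 2 * (K / n ^ 4) :=
    add_le_add (mul_le_mul_of_nonneg_left hEA hr.le)
      (mul_le_mul_of_nonneg_left hEB (by positivity))
  calc S * (r * Real.exp (-(n * (1 / (D * m * r)) ^ 2 / (25 * S ^ 2))) +
      n ^ 2 * Real.exp (-(n * (1 / (D * m)) ^ 4 / 8)))
      ≤ n * (r * (K / n ^ 4) + n ^ 2 * (K / n ^ 4)) := by
        refine mul_le_mul hmn hsum ?_ hn0.le
        have := Real.exp_pos (-(n * (1 / (D * m * r)) ^ 2 / (25 * S ^ 2)))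
        have := Real.exp_pos (-(n * (1 / (D * m)) ^ 4 / 8))
        positivity
    _ = (r + n ^ 2) * K / n ^ 3 := by
        field_simp
    _ ≤ ((r + 1) * n ^ 2) * K / n ^ 3 := by
        have h1 : 1 ≤ n ^ 2 := one_le_pow₀ hn
        have h2 : r + n ^ 2 ≤ (r + 1) * n ^ 2 := by nlinarith
        exact div_le_div_of_nonneg_right (mul_le_mul_of_nonneg_right h2 hK0.le) (by positivity)
    _ = (r + 1) * K / n := by
        field_simp
    _ < 1 := by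
        rw [div_lt_one hn0]
        exact hnK

/-- The numerical union bound, polynomial form.

Proof. As `lv_num` in V/Lv1 (copy the private lemmas): with `c = min (1 / (25 D ^ 2 r ^ 2))
(1 / (8 D ^ 4)) ≥ 1 / (25 D ^ 4 r ^ 2)`, `K = 20 ! / c ^ 20 ≤ 20 ! * (25 D ^ 4) ^ 20 * r ^ 40` and
`(r + 1) * K < n` holds if `C * r ^ 50 ≤ n` with `C = 2 * 20 ! * (25 D ^ 4) ^ 20 + 41`
(`r + 1 ≤ 2 r`, `r ^ 41 ≤ r ^ 50`, strict because of the `+ 41`; `40 ≤ n`). -/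
theorem lv_num_b (D : ℕ) (hD : 0 < D) : ∃ C : ℕ, ∀ r n m S : ℕ, 0 < r → C * r ^ 50 ≤ n →
    m ^ 5 ≤ n → S ≤ m → 0 < S → 10 * S ^ 2 ≤ n ∧
      (S : ℝ) * ((r : ℝ) *
        Real.exp (-((n : ℝ) * (1 / ((D : ℝ) * m * r)) ^ 2 / (25 * (S : ℝ) ^ 2))) +
        (n : ℝ) ^ 2 * Real.exp (-((n : ℝ) * (1 / ((D : ℝ) * m)) ^ 4 / 8))) < 1 := by
  have hD' : (1 : ℝ) ≤ D := by exact_mod_cast hD
  have hD0 : (0 : ℝ) < D := by linarith
  refine ⟨2 * Nat.factorial 20 * (25 * D ^ 4) ^ 20 + 41, fun r n m S hr hn hm hS hS0 => ?_⟩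
  have hr' : (1 : ℝ) ≤ r := by exact_mod_cast hr
  have hr0 : (0 : ℝ) < r := by linarith
  have h50 : 1 ≤ r ^ 50 := Nat.one_le_pow _ _ hr
  have h41 : 41 * r ^ 50 ≤ n := le_trans (Nat.mul_le_mul_right _ (Nat.le_add_left _ _)) hn
  have hn' : ((2 * (Nat.factorial 20 : ℝ) * (25 * (D : ℝ) ^ 4) ^ 20 + 41) * (r : ℝ) ^ 50 : ℝ) ≤
      n := by exact_mod_cast hn
  refine ⟨lv1b_sq (by omega) hm hS, ?_⟩
  have hr2 : (1 : ℝ) ≤ (r : ℝ) ^ 2 := one_le_pow₀ hr'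
  have hD2 : (1 : ℝ) ≤ (D : ℝ) ^ 2 := one_le_pow₀ hD'
  have hD4 : (D : ℝ) ^ 2 ≤ (D : ℝ) ^ 4 := pow_le_pow_right₀ hD' (by norm_num)
  have hD40 : (0 : ℝ) < (D : ℝ) ^ 4 := by positivity
  refine lv1b_num (c := 1 / (25 * (D : ℝ) ^ 4 * (r : ℝ) ^ 2)) hD0 hr0 ?_ ?_ ?_ ?_ ?_
    (by positivity) ?_ ?_ rfl ?_
  · exact_mod_cast (by omega : 1 ≤ n)
  · exact_mod_cast (by omega : 1 ≤ m)
  · exact_mod_cast hm
  · exact_mod_cast hS0
  · exact_mod_cast hS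
  · refine one_div_le_one_div_of_le (by positivity) ?_
    exact mul_le_mul_of_nonneg_right (by linarith) (by positivity)
  · refine one_div_le_one_div_of_le (by positivity) ?_
    nlinarith
  · refine lt_of_lt_of_le ?_ hn'
    have e : (Nat.factorial 20 : ℝ) / (1 / (25 * (D : ℝ) ^ 4 * (r : ℝ) ^ 2)) ^ 20 =
        (Nat.factorial 20 : ℝ) * (25 * (D : ℝ) ^ 4) ^ 20 * (r : ℝ) ^ 40 := by
      rw [one_div, inv_pow, div_inv_eq_mul]
      ring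
    rw [e]
    obtain ⟨X, hX⟩ : ∃ X : ℝ, X = (Nat.factorial 20 : ℝ) * (25 * (D : ℝ) ^ 4) ^ 20 := ⟨_, rfl⟩
    have hX0 : 0 < X := by
      rw [hX]
      positivity
    rw [← hX, show 2 * (Nat.factorial 20 : ℝ) * (25 * (D : ℝ) ^ 4) ^ 20 = 2 * X by
      rw [hX]
      ring]
    have h1 : (r : ℝ) ^ 41 ≤ (r : ℝ) ^ 50 := pow_le_pow_right₀ hr' (by norm_num)
    have h2 : (0 : ℝ) < (r : ℝ) ^ 50 := by positivity
    have h3 : ((r : ℝ) + 1) * (X * (r : ℝ) ^ 40) ≤ 2 * X * (r : ℝ) ^ 41 := by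
      have : (0 : ℝ) < X * (r : ℝ) ^ 40 := by positivity
      calc ((r : ℝ) + 1) * (X * (r : ℝ) ^ 40) ≤ (2 * r) * (X * (r : ℝ) ^ 40) :=
            mul_le_mul_of_nonneg_right (by linarith) this.le
        _ = 2 * X * (r : ℝ) ^ 41 := by ring
    calc ((r : ℝ) + 1) * (X * (r : ℝ) ^ 40) ≤ 2 * X * (r : ℝ) ^ 41 := h3
      _ ≤ 2 * X * (r : ℝ) ^ 50 := mul_le_mul_of_nonneg_left h1 (by positivity)
      _ < (2 * X + 41) * (r : ℝ) ^ 50 := by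
        rw [add_mul]
        linarith

end Pool.Agent.MPfe8e9bU
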