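import Mathlib
import Pool.Agent.Lib.MP_fe8e9b_al_V.Lv2
import Pool.Agent.Lib.MP_fe8e9b_al_U.Lv1b

/-!
# MP_fe8e9b_al, iterated wreath products over all transitive actions: existence of the data of a
level, polynomial form -/

set_option autoImplicit false

open scoped BigOperators

namespace Pool.Agent.MPfe8e9bU

open Pool.Agent.MPfe8e9b Pool.Agent.MPfe8e9bA Pool.Agent.MPfe8e9bW Pool.Agent.MPfe8e9bV

/-- Existence of the data of a level, polynomial form.

Proof. The proof of `lv_data` in V/Lv2 with `lv_num_b` instead of `lv_num` (it uses only the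
conclusion of the numerical lemma for the one `n = card X`). -/
theorem lv_data_b (D : ℕ) (hD : 0 < D) : ∃ C : ℕ, ∀ r : ℕ, 0 < r → ∀ (K X : Type) [Group K]
    [Fintype K] [Fintype X] (α : K →* Equiv.Perm X), (∀ x y : X, ∃ p, α p x = y) →
    ∀ b S : ℕ, 0 < S → 10 * S ≤ D * 2 ^ b → 32 ^ (b + S - 1) ≤ Fintype.card X →
    C * r ^ 50 ≤ Fintype.card X →
    ∃ (h : Fin S → K) (Z : Finset X) (T : Fin S → Finset X) (l : X → Fin r),
      (∀ s, T s ⊆ Z) ∧
      (∀ s m, 1 / ((D : ℝ) * 2 ^ (b + s.1)) / (2 * r) ≤ mn (fun x => ind (x ∈ T s ∧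
        (∀ s', s' ≠ s → α (h s') ((α (h s))⁻¹ x) ∉ Z) ∧ l x = m))) ∧
      ∀ s, ∀ x x' : X, x ≠ x' →
        mn (fun σ : K => ind ((α σ)⁻¹ x ∈ T s ∧ (α σ)⁻¹ x' ∈ T s)) ≤
          2 * (1 / ((D : ℝ) * 2 ^ (b + s.1))) ^ 2 := by
  obtain ⟨C, hC⟩ := lv_num_b D hD
  refine ⟨C, ?_⟩
  intro r hr K X _ _ _ α htr b S hS h10 h32 hNX
  classical
  set n : ℕ := Fintype.card X with hn
  set m : ℕ := 2 ^ (b + S - 1) with hm
  have hm5 : m ^ 5 ≤ n := by
    have h1 : m ^ 5 = 32 ^ (b + S - 1) := by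
      rw [hm, ← pow_mul, mul_comm, pow_mul]
      norm_num
    rw [h1]
    exact h32
  have hSm : S ≤ m := by
    have h1 : S - 1 < 2 ^ (S - 1) := Nat.lt_two_pow_self
    have h2 : 2 ^ (S - 1) ≤ 2 ^ (b + S - 1) := Nat.pow_le_pow_right (by norm_num) (by omega)
    omega
  obtain ⟨hSn, hsum⟩ := hC r n m S hr hNX hm5 hSm hS
  obtain ⟨h, hh⟩ := bur α htr S
  -- the labels
  set A : ℕ := D * 2 ^ (b + S) with hA
  have hA0 : 0 < A := Nat.mul_pos hD (by positivity)
  have : Nonempty (Fin A × Fin r) := ⟨(⟨0, hA0⟩, ⟨0, hr⟩)⟩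
  have hcΩ : Fintype.card (Fin A × Fin r) = A * r := by
    rw [Fintype.card_prod, Fintype.card_fin, Fintype.card_fin]
  have hle : ∀ k ≤ S, 2 ^ k ≤ A := by
    intro k hk
    calc 2 ^ k ≤ 2 ^ (b + S) := Nat.pow_le_pow_right (by norm_num) (by omega)
      _ ≤ A := Nat.le_mul_of_pos_left _ hD
  set ZΩ : Finset (Fin A × Fin r) := lv2_seg A (2 ^ S) ×ˢ Finset.univ with hZΩ
  let ML : Fin S → Fin r → Finset (Fin A × Fin r) := fun s m' => lv2_seg A (2 ^ (S - s.1)) ×ˢ {m'}
  let MT : Fin S → Finset (Fin A × Fin r) := fun s => lv2_seg A (2 ^ (S - s.1)) ×ˢ Finset.univ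
  have hZc : ZΩ.card = 2 ^ S * r := by
    rw [hZΩ, Finset.card_product, lv2_seg_card (hle S le_rfl), Finset.card_univ, Fintype.card_fin]
  have hMLc : ∀ s m', (ML s m').card = 2 ^ (S - s.1) := by
    intro s m'
    simp only [ML]
    rw [Finset.card_product, lv2_seg_card (hle _ (Nat.sub_le _ _)), Finset.card_singleton, mul_one]
  have hMTc : ∀ s, (MT s).card = 2 ^ (S - s.1) * r := by
    intro s
    simp only [MT]
    rw [Finset.card_product, lv2_seg_card (hle _ (Nat.sub_le _ _)), Finset.card_univ,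
      Fintype.card_fin]
  have hrR : (0 : ℝ) < r := by exact_mod_cast hr
  have hDR : (0 : ℝ) < D := by exact_mod_cast hD
  have hpow : ∀ s : Fin S, (A : ℝ) = (D : ℝ) * 2 ^ (b + s.1) * 2 ^ (S - s.1) := by
    intro s
    have h1 : b + S = (b + s.1) + (S - s.1) := by
      have := s.2
      omega
    rw [hA, h1]
    push_cast
    rw [pow_add]
    ring
  have hθL : ∀ s m', 1 / ((D : ℝ) * 2 ^ (b + s.1) * r) =
      ((ML s m').card : ℝ) / (Fintype.card (Fin A × Fin r) : ℝ) := by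
    intro s m'
    rw [hMLc, hcΩ]
    push_cast
    rw [hpow s]
    field_simp
  have hθT : ∀ s, 1 / ((D : ℝ) * 2 ^ (b + s.1)) =
      ((MT s).card : ℝ) / (Fintype.card (Fin A × Fin r) : ℝ) := by
    intro s
    rw [hMTc, hcΩ]
    push_cast
    rw [hpow s]
    field_simp
  have hZ : 10 * S * ZΩ.card ≤ Fintype.card (Fin A × Fin r) := by
    rw [hZc, hcΩ, hA, pow_add]
    calc 10 * S * (2 ^ S * r) = (10 * S) * (2 ^ S * r) := rfl
      _ ≤ (D * 2 ^ b) * (2 ^ S * r) := Nat.mul_le_mul_right _ h10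
      _ = D * (2 ^ b * 2 ^ S) * r := by ring
  -- the probabilities
  set e1 : ℝ := Real.exp (-((n : ℝ) * (1 / ((D : ℝ) * m * r)) ^ 2 / (25 * (S : ℝ) ^ 2))) with he1
  set e2 : ℝ := Real.exp (-((n : ℝ) * (1 / ((D : ℝ) * m)) ^ 4 / 8)) with he2
  have hms : ∀ s : Fin S, (2 : ℝ) ^ (b + s.1) ≤ m := by
    intro s
    have h1 : (2 : ℕ) ^ (b + s.1) ≤ m := Nat.pow_le_pow_right (by norm_num) (by
      have := s.2
      omega)
    exact_mod_cast h1
  have hm0 : (0 : ℝ) < m := by
    rw [hm]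
    push_cast
    positivity
  let E : Fin S × (Fin r ⊕ (X × X)) → (X → Fin A × Fin r) → Prop := fun τ t =>
    match τ with
    | (s, .inl m') => mn (fun x => ind (t x ∈ ML s m' ∧
        ∀ s', s' ≠ s → t (α (h s') ((α (h s))⁻¹ x)) ∉ ZΩ)) <
          (1 / ((D : ℝ) * 2 ^ (b + s.1) * r)) / 2
    | (s, .inr (x, x')) => x ≠ x' ∧ 2 * (1 / ((D : ℝ) * 2 ^ (b + s.1))) ^ 2 <
        mn (fun σ : K => ind (t ((α σ)⁻¹ x) ∈ MT s ∧ t ((α σ)⁻¹ x') ∈ MT s))
  obtain ⟨t, ht⟩ := lv2_union E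
    (fun τ => match τ with | (_, .inl _) => e1 | (_, .inr _) => e2) (by
      rintro ⟨s, (m' | ⟨x, x'⟩)⟩
      · refine (lv_letter α h hh hSn s ZΩ (ML s m') hZ _ (hθL s m')).trans ?_
        rw [he1]
        refine Real.exp_le_exp.2 (neg_le_neg ?_)
        have h1 : 1 / ((D : ℝ) * m * r) ≤ 1 / ((D : ℝ) * 2 ^ (b + s.1) * r) := by
          refine one_div_le_one_div_of_le (by positivity) ?_
          gcongr
          exact hms s
        have h2 : (0 : ℝ) ≤ 1 / ((D : ℝ) * m * r) := by positivity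
        gcongr
      · by_cases hx : x = x'
        · have h1 : (fun t : X → Fin A × Fin r => ind (E (s, .inr (x, x')) t)) = fun _ => 0 := by
            funext t
            exact ind_false fun hE => hE.1 hx
          rw [h1, mn_const]
          exact (Real.exp_pos _).le
        · refine (mn_mono (g := fun t : X → Fin A × Fin r =>
            ind (2 * (1 / ((D : ℝ) * 2 ^ (b + s.1))) ^ 2 <
              mn (fun σ : K => ind (t ((α σ)⁻¹ x) ∈ MT s ∧ t ((α σ)⁻¹ x') ∈ MT s))))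
            fun t => ind_mono fun hE => hE.2).trans ?_
          refine (lv_pair α htr (MT s) _ (hθT s) x x' hx).trans ?_
          rw [he2]
          refine Real.exp_le_exp.2 (neg_le_neg ?_)
          have h1 : 1 / ((D : ℝ) * m) ≤ 1 / ((D : ℝ) * 2 ^ (b + s.1)) := by
            refine one_div_le_one_div_of_le (by positivity) ?_
            gcongr
            exact hms s
          have h2 : (0 : ℝ) ≤ 1 / ((D : ℝ) * m) := by positivity
          gcongr) (by
      refine lt_of_le_of_lt (le_of_eq ?_) hsum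
      rw [Fintype.sum_prod_type]
      simp only [Fintype.sum_sum_type, Finset.sum_const, Finset.card_univ, Fintype.card_fin,
        Fintype.card_prod, nsmul_eq_mul]
      push_cast
      ring)
  refine ⟨h, Finset.univ.filter fun x => t x ∈ ZΩ, fun s => Finset.univ.filter fun x => t x ∈ MT s,
    fun x => (t x).2, ?_, ?_, ?_⟩
  · intro s x hx
    rw [Finset.mem_filter] at hx ⊢
    refine ⟨hx.1, ?_⟩
    have h1 := hx.2
    simp only [MT, lv2_seg, Finset.mem_product, Finset.mem_filter, Finset.mem_univ, true_and,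
      and_true] at h1
    rw [hZΩ]
    simp only [lv2_seg, Finset.mem_product, Finset.mem_filter, Finset.mem_univ, true_and,
      and_true]
    exact h1.trans_le (Nat.pow_le_pow_right (by norm_num) (Nat.sub_le _ _))
  · intro s m'
    have h1 := not_lt.1 (ht (s, .inl m'))
    have h2 : 1 / ((D : ℝ) * 2 ^ (b + s.1)) / (2 * r) =
        (1 / ((D : ℝ) * 2 ^ (b + s.1) * r)) / 2 := by
      field_simp
    rw [h2]
    refine h1.trans (mn_mono fun x => ind_mono ?_)
    rintro ⟨h3, h4⟩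
    simp only [ML, Finset.mem_product, Finset.mem_singleton] at h3
    refine ⟨?_, ?_, h3.2⟩
    · rw [Finset.mem_filter]
      refine ⟨Finset.mem_univ _, ?_⟩
      simp only [MT, Finset.mem_product, Finset.mem_univ, and_true]
      exact h3.1
    · intro s' hs' h5
      rw [Finset.mem_filter] at h5
      exact h4 s' hs' h5.2
  · intro s x x' hx
    have h1 := ht (s, .inr (x, x'))
    have h2 : mn (fun σ : K => ind (t ((α σ)⁻¹ x) ∈ MT s ∧ t ((α σ)⁻¹ x') ∈ MT s)) ≤
        2 * (1 / ((D : ℝ) * 2 ^ (b + s.1))) ^ 2 := by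
      by_contra h3
      exact h1 ⟨hx, not_le.1 h3⟩
    refine le_trans (mn_mono fun σ => ind_mono ?_) h2
    rintro ⟨h3, h4⟩
    rw [Finset.mem_filter] at h3 h4
    exact ⟨h3.2, h4.2⟩

end Pool.Agent.MPfe8e9bU
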