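import Mathlib
import Pool.Agent.Lib.MP_fe8e9b_al_V.Enc
import Pool.Agent.Lib.MP_fe8e9b_al_U.Lv2b
import Pool.Agent.Lib.MP_fe8e9b_al_U.Defs

/-!
# MP_fe8e9b_al, iterated wreath products over all transitive actions: levels whose letters are
products of commutators -/

set_option autoImplicit false

open scoped BigOperators

namespace Pool.Agent.MPfe8e9bU

open Pool.Agent.MPfe8e9b Pool.Agent.MPfe8e9bA Pool.Agent.MPfe8e9bW Pool.Agent.MPfe8e9bV

/-- Existence of a level.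

Proof. `lv_data_b` with `r = q` (the same `C`); for every `i : Fin M` apply `enc` to the same
`h`, `Z`, `T`, `l` and to `fun j => u j i`, `fun j => w j i`, where
`y j = (List.ofFn fun i => cm (u j i) (w j i)).prod` (`hy`). For the scale `a` take `s = a - b`,
the element `h s` and `U = {x ∈ T s | ∀ s' ≠ s, α (h s') ((α (h s))⁻¹ x) ∉ Z}` (compare `level` in
V/Lv). -/
theorem level_m (D : ℕ) (hD : 0 < D) : ∃ C : ℕ, ∀ q : ℕ, 0 < q → ∀ (K X : Type) [Group K]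
    [Fintype K] [Fintype X] (α : K →* Equiv.Perm X), (∀ x y : X, ∃ p, α p x = y) →
    ∀ b S : ℕ, 0 < S → 10 * S ≤ D * 2 ^ b → 32 ^ (b + S - 1) ≤ Fintype.card X →
    C * q ^ 50 ≤ Fintype.card X → ∀ (M : ℕ) (G : Type) [Group G] (y : Fin q → G),
    (∀ j, CP M (y j)) → ∃ z z' : Fin M → X → G, ∀ a : ℕ, b ≤ a → a < b + S →
      LvlM α y (1 / ((D : ℝ) * 2 ^ a)) z z' := by
  classical
  obtain ⟨C, hC⟩ := lv_data_b D hD
  refine ⟨C, fun q hq K X _ _ _ α htr b S hS h10 h32 hCX M G _ y hcp => ?_⟩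
  obtain ⟨h, Z, T, l, hT, hd, hp⟩ := hC q hq K X α htr b S hS h10 h32 hCX
  choose u w hy using hcp
  choose z z' hz using fun i : Fin M => enc α h Z T hT l (fun j => u j i) (fun j => w j i)
  refine ⟨z, z', fun a ha ha' => ?_⟩
  obtain ⟨s, hs⟩ : ∃ s : Fin S, b + s.1 = a := ⟨⟨a - b, by omega⟩, by simp; omega⟩
  have hdm := hd s
  have hps := hp s
  rw [hs] at hdm hps
  have hU : ∀ x, x ∈ Finset.univ.filter (fun x => x ∈ T s ∧
      ∀ s', s' ≠ s → α (h s') ((α (h s))⁻¹ x) ∉ Z) ↔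
      (x ∈ T s ∧ ∀ s', s' ≠ s → α (h s') ((α (h s))⁻¹ x) ∉ Z) := fun x => by
    rw [Finset.mem_filter]
    exact ⟨fun hx => hx.2, fun hx => ⟨Finset.mem_univ _, hx⟩⟩
  refine ⟨h s, Finset.univ.filter (fun x => x ∈ T s ∧
    ∀ s', s' ≠ s → α (h s') ((α (h s))⁻¹ x) ∉ Z), l, fun x hx => ?_,
    fun x hx i => (hz i s x).2 fun hc => hx ((hU x).2 hc), fun m => (hdm m).trans
      (mn_mono fun x => ind_mono fun hx => ⟨(hU x).2 ⟨hx.1, hx.2.1⟩, hx.2.2⟩), ?_⟩
  · rw [hy (l x)]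
    exact congrArg (fun f => (List.ofFn f).prod)
      (funext fun i => (hz i s x).1 ((hU x).1 hx))
  · intro x x' hxx
    exact (mn_mono fun σ => ind_mono fun hx =>
      ⟨((hU _).1 hx.1).1, ((hU _).1 hx.2).1⟩).trans (hps x x' hxx)

end Pool.Agent.MPfe8e9bU
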