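import Mathlib
import Pool.Agent.Lib.MP_fe8e9b_al_V.Par

/-!
# MP_fe8e9b_al, iterated wreath products over all transitive actions: the parameters
-/

set_option autoImplicit false

open scoped BigOperators

namespace Pool.Agent.MPfe8e9bU

open Pool.Agent.MPfe8e9b Pool.Agent.MPfe8e9bA Pool.Agent.MPfe8e9bW Pool.Agent.MPfe8e9bV

/-- Exponential against polynomial. -/
private theorem parm_poly : ∃ B : ℕ, ∀ b : ℕ, B ≤ b → b ^ 20 ≤ 2 ^ b := by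
  have h := isLittleO_pow_const_const_pow_of_one_lt (R := ℝ) 20 (one_lt_two (α := ℝ))
  have h1 := h.def (c := 1) one_pos
  obtain ⟨B, hB⟩ := Filter.eventually_atTop.1 h1
  refine ⟨B, fun b hb => ?_⟩
  have h2 := hB b hb
  rw [Real.norm_of_nonneg (by positivity), Real.norm_of_nonneg (by positivity), one_mul] at h2
  exact_mod_cast h2

/-- A power of a logarithm. -/
private theorem parm_log : ∃ K : ℕ, ∀ T : ℕ, 1 ≤ T →
    (20 * (Nat.log 2 (20 * (T + 1)) + 1)) ^ 20 ≤ K * T := by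
  obtain ⟨B, hB⟩ := parm_poly
  refine ⟨20 ^ 20 * (B ^ 20 + 1) * 80, fun T hT => ?_⟩
  obtain ⟨L, hL⟩ : ∃ L : ℕ, L = Nat.log 2 (20 * (T + 1)) := ⟨_, rfl⟩
  rw [← hL]
  have h1 : 2 ^ L ≤ 20 * (T + 1) := by
    rw [hL]
    exact Nat.pow_log_le_self 2 (by omega)
  have h2 : (L + 1) ^ 20 ≤ (B ^ 20 + 1) * 2 ^ (L + 1) := by
    rcases le_total B (L + 1) with h | h
    · calc (L + 1) ^ 20 ≤ 2 ^ (L + 1) := hB _ h
        _ = 1 * 2 ^ (L + 1) := (one_mul _).symm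
        _ ≤ (B ^ 20 + 1) * 2 ^ (L + 1) := Nat.mul_le_mul_right _ (Nat.le_add_left _ _)
    · calc (L + 1) ^ 20 ≤ B ^ 20 := Nat.pow_le_pow_left h 20
        _ ≤ B ^ 20 + 1 := Nat.le_succ _
        _ = (B ^ 20 + 1) * 1 := (mul_one _).symm
        _ ≤ (B ^ 20 + 1) * 2 ^ (L + 1) := Nat.mul_le_mul_left _ Nat.one_le_two_pow
  have h3 : 2 ^ (L + 1) ≤ 80 * T := by
    rw [pow_succ]
    omega
  calc (20 * (L + 1)) ^ 20 = 20 ^ 20 * (L + 1) ^ 20 := by rw [mul_pow]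
    _ ≤ 20 ^ 20 * ((B ^ 20 + 1) * 2 ^ (L + 1)) := Nat.mul_le_mul_left _ h2
    _ ≤ 20 ^ 20 * ((B ^ 20 + 1) * (80 * T)) :=
        Nat.mul_le_mul_left _ (Nat.mul_le_mul_left _ h3)
    _ = 20 ^ 20 * (B ^ 20 + 1) * 80 * T := by ring

/-- Linear against exponential. -/
private theorem parm_lin (b : ℕ) (hb : 8 ≤ b) : 10 * b ≤ 2 ^ (b - 1) := by
  induction b, hb using Nat.le_induction with
  | base => norm_num
  | succ k hk ih =>
    have e : k + 1 - 1 = (k - 1) + 1 := by omega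
    rw [e, pow_succ]
    omega

/-- The last inequality. -/
private theorem parm_ineq {K Cq c b T w : ℕ}
    (hb : (1000 * (K + 1) * (Cq + 1) * (c + 1)) ^ 3 ≤ b ^ 2) (hT : b ≤ 10 * T)
    (hw : w ^ 4 ≤ K * T) : (Cq + 1) * (c + 1) * (4 * w) ≤ 5 * T := by
  obtain ⟨X, hX⟩ : ∃ X : ℕ, X = 1000 * (K + 1) * (Cq + 1) * (c + 1) := ⟨_, rfl⟩
  rw [← hX] at hb
  have hX1 : 1 ≤ X := by
    rw [hX]
    exact Nat.one_le_iff_ne_zero.2 (by positivity)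
  have h1 : X ^ 4 ≤ b ^ 3 := by
    have h2 : (X ^ 4) ^ 2 ≤ (b ^ 3) ^ 2 := by
      calc (X ^ 4) ^ 2 = X ^ 8 := by rw [← pow_mul]
        _ ≤ X ^ 9 := Nat.pow_le_pow_right hX1 (by norm_num)
        _ = (X ^ 3) ^ 3 := by rw [← pow_mul]
        _ ≤ (b ^ 2) ^ 3 := Nat.pow_le_pow_left hb 3
        _ = (b ^ 3) ^ 2 := by rw [← pow_mul, ← pow_mul]
    exact (Nat.pow_le_pow_iff_left (by norm_num)).1 h2
  have h3 : X ^ 4 ≤ 1000 * T ^ 3 := by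
    calc X ^ 4 ≤ b ^ 3 := h1
      _ ≤ (10 * T) ^ 3 := Nat.pow_le_pow_left hT 3
      _ = 1000 * T ^ 3 := by ring
  obtain ⟨Y, hY⟩ : ∃ Y : ℕ, Y = (Cq + 1) * (c + 1) := ⟨_, rfl⟩
  rw [← hY]
  have hXY : X = 1000 * (K + 1) * Y := by
    rw [hX, hY]
    ring
  have h4 : 256 * (K + 1) * Y ^ 4 ≤ 625 * T ^ 3 := by
    have h5 : 1000 * (256 * (K + 1) * Y ^ 4) ≤ 625 * X ^ 4 := by
      have h6 : K + 1 ≤ (K + 1) ^ 4 := Nat.le_self_pow (by norm_num) _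
      calc 1000 * (256 * (K + 1) * Y ^ 4) = 256000 * ((K + 1) * Y ^ 4) := by ring
        _ ≤ 256000 * ((K + 1) ^ 4 * Y ^ 4) :=
            Nat.mul_le_mul_left _ (Nat.mul_le_mul_right _ h6)
        _ ≤ 625 * 1000 ^ 4 * ((K + 1) ^ 4 * Y ^ 4) :=
            Nat.mul_le_mul_right _ (by norm_num)
        _ = 625 * X ^ 4 := by
            rw [hXY]
            ring
    have h7 : 625 * X ^ 4 ≤ 625 * (1000 * T ^ 3) := Nat.mul_le_mul_left _ h3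
    omega
  have h8 : (Y * (4 * w)) ^ 4 ≤ (5 * T) ^ 4 := by
    calc (Y * (4 * w)) ^ 4 = 256 * w ^ 4 * Y ^ 4 := by ring
      _ ≤ 256 * (K * T) * Y ^ 4 :=
          Nat.mul_le_mul_right _ (Nat.mul_le_mul_left _ hw)
      _ ≤ 256 * ((K + 1) * T) * Y ^ 4 :=
          Nat.mul_le_mul_right _ (Nat.mul_le_mul_left _
            (Nat.mul_le_mul_right _ (Nat.le_succ K)))
      _ = 256 * (K + 1) * Y ^ 4 * T := by ring
      _ ≤ 625 * T ^ 3 * T := Nat.mul_le_mul_right _ h4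
      _ = (5 * T) ^ 4 := by ring
  exact (Nat.pow_le_pow_iff_left (by norm_num)).1 h8

/-- The parameters.

Proof. As in V/Par: `T = Nat.log 32 n`, `b₁ = Nat.clog 2 (10 * (T + 1))`, `S₁ = T + 1 - b₁`,
`b₂ = Nat.clog 2 (10 * b₁)`, `S₂ = b₁ - b₂` (`n ≥ 2 ^ C₁` is large, since `b ^ 2 ≥ C₁ ^ 3 (c + 1)
^ 3` and `b ≥ C₁`). For the last inequality: `w = 32 ^ b₂ ≤ (20 b₁) ^ 5` and `b₁ ≤ Nat.log 2 (20
(T + 1)) + 1`, so `w ^ 4 ≤ K * T` for a constant `K` (`T ≥ 1`; a power of a logarithm; prove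
`∃ K, ∀ T ≥ 1, (20 * (Nat.log 2 (20 * (T + 1)) + 1)) ^ 20 ≤ K * T`). `5 T ≤ Nat.log 2 n`, and
`2 q ≤ 2 ^ (Cq * (c + 1) + 1)`, so it is enough that `4 w (Cq + 1) (c + 1) ≤ 5 T`; by fourth powers
it is enough that `256 K T (Cq + 1) ^ 4 (c + 1) ^ 4 ≤ 625 T ^ 4`, that is
`256 K (Cq + 1) ^ 4 (c + 1) ^ 4 ≤ 625 T ^ 3`; and `5 (T + 1) > b`, `b ^ 2 ≥ (C₁ (c + 1)) ^ 3` give
`b ^ 3 ≥ (C₁ (c + 1)) ^ (9/2) ≥ (C₁ (c + 1)) ^ 4`. -/
theorem par_m (Cq : ℕ) : ∃ C₁ : ℕ, 0 < C₁ ∧ ∀ c b n q : ℕ, (C₁ * (c + 1)) ^ 3 ≤ b ^ 2 →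
    2 ^ b ≤ n → q ≤ 2 ^ (Cq * (c + 1)) → ∃ b₁ b₂ S₁ S₂ : ℕ, 0 < S₁ ∧ 0 < S₂ ∧
    10 * S₁ ≤ 2 ^ b₁ ∧ 10 * S₂ ≤ 2 ^ b₂ ∧ b₂ + S₂ = b₁ ∧ 32 ^ (b₁ + S₁ - 1) ≤ n ∧
    n < 32 ^ (b₁ + S₁) ∧ (2 * q) ^ (4 * 32 ^ b₂) ≤ n := by
  obtain ⟨K, hK⟩ := parm_log
  refine ⟨1000 * (K + 1) * (Cq + 1), by positivity, fun c b n q hcb hbn hq => ?_⟩
  have hn0 : n ≠ 0 := by
    have : 0 < 2 ^ b := by positivity
    omega
  obtain ⟨T, hT⟩ : ∃ T : ℕ, T = Nat.log 32 n := ⟨_, rfl⟩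
  have hT1 : 32 ^ T ≤ n := by
    rw [hT]
    exact Nat.pow_log_le_self 32 hn0
  have hT2 : n < 32 ^ (T + 1) := by
    rw [hT]
    exact Nat.lt_pow_succ_log_self (by norm_num) n
  have hb5 : b < 5 * (T + 1) := by
    have h1 : 2 ^ b < 2 ^ (5 * (T + 1)) := by
      calc 2 ^ b ≤ n := hbn
        _ < 32 ^ (T + 1) := hT2
        _ = 2 ^ (5 * (T + 1)) := by
          rw [pow_mul]
          norm_num
    exact (Nat.pow_lt_pow_iff_right (by norm_num)).1 h1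
  have hb1000 : 1000 ≤ b := by
    by_contra hc
    push Not at hc
    have h1 : b ^ 2 < 1000 ^ 2 := Nat.pow_lt_pow_left hc (by norm_num)
    have h2 : 1000 ≤ 1000 * (K + 1) * (Cq + 1) * (c + 1) := by
      have h3 : 1 ≤ (K + 1) * (Cq + 1) * (c + 1) := Nat.one_le_iff_ne_zero.2 (by positivity)
      have h4 : 1000 * (K + 1) * (Cq + 1) * (c + 1) =
          1000 * ((K + 1) * (Cq + 1) * (c + 1)) := by ring
      omega
    have h5 : 1000 ^ 3 ≤ (1000 * (K + 1) * (Cq + 1) * (c + 1)) ^ 3 := Nat.pow_le_pow_left h2 3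
    have h6 := h5.trans hcb
    norm_num at h1 h6
    omega
  have hT13 : 13 ≤ T := by omega
  have hb10 : b ≤ 10 * T := by omega
  obtain ⟨b₁, hb₁⟩ : ∃ b₁ : ℕ, b₁ = Nat.clog 2 (10 * (T + 1)) := ⟨_, rfl⟩
  have h1a : 10 * (T + 1) ≤ 2 ^ b₁ := by
    rw [hb₁]
    exact Nat.le_pow_clog (by norm_num) _
  have h1b : 2 ^ (b₁ - 1) < 10 * (T + 1) := by
    have h0 : 1 < 10 * (T + 1) := by omega
    have := Nat.pow_pred_clog_lt_self one_lt_two h0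
    rw [← hb₁] at this
    exact this
  have hb8 : 8 ≤ b₁ := by
    by_contra hc
    push Not at hc
    have : 2 ^ b₁ ≤ 2 ^ 7 := Nat.pow_le_pow_right (by norm_num) (by omega)
    norm_num at this
    omega
  have hbT : b₁ ≤ T := by
    rw [hb₁]
    apply Nat.clog_le_of_le_pow
    have h5 := parm_lin (T + 1) (by omega)
    simpa using h5
  obtain ⟨b₂, hb₂⟩ : ∃ b₂ : ℕ, b₂ = Nat.clog 2 (10 * b₁) := ⟨_, rfl⟩
  have h2a : 10 * b₁ ≤ 2 ^ b₂ := by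
    rw [hb₂]
    exact Nat.le_pow_clog (by norm_num) _
  have h2b : 2 ^ (b₂ - 1) < 10 * b₁ := by
    have h0 : 1 < 10 * b₁ := by omega
    have := Nat.pow_pred_clog_lt_self one_lt_two h0
    rw [← hb₂] at this
    exact this
  have hb21 : b₂ ≤ b₁ - 1 := by
    rw [hb₂]
    apply Nat.clog_le_of_le_pow
    exact parm_lin b₁ hb8
  have hb20 : b₂ ≠ 0 := by
    intro h0
    rw [h0] at h2a
    norm_num at h2a
    omega
  have h2c : 2 ^ b₂ ≤ 20 * b₁ := by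
    have e : b₂ = (b₂ - 1) + 1 := by omega
    rw [e, pow_succ]
    omega
  refine ⟨b₁, b₂, T + 1 - b₁, b₁ - b₂, by omega, by omega, by omega, by omega, by omega, ?_, ?_, ?_⟩
  · have e : b₁ + (T + 1 - b₁) - 1 = T := by omega
    rw [e]
    exact hT1
  · have e : b₁ + (T + 1 - b₁) = T + 1 := by omega
    rw [e]
    exact hT2
  · have h32 : 32 ^ b₂ ≤ (20 * b₁) ^ 5 := by
      calc 32 ^ b₂ = (2 ^ b₂) ^ 5 := by
            rw [← pow_mul, mul_comm b₂ 5, pow_mul]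
            norm_num
        _ ≤ (20 * b₁) ^ 5 := Nat.pow_le_pow_left h2c 5
    have hb1L : b₁ ≤ Nat.log 2 (20 * (T + 1)) + 1 := by
      have h3 : b₁ - 1 ≤ Nat.log 2 (20 * (T + 1)) :=
        Nat.le_log_of_pow_le (by norm_num) (by omega)
      omega
    have hw : (32 ^ b₂) ^ 4 ≤ K * T := by
      calc (32 ^ b₂) ^ 4 ≤ ((20 * b₁) ^ 5) ^ 4 := Nat.pow_le_pow_left h32 4
        _ = (20 * b₁) ^ 20 := by rw [← pow_mul]
        _ ≤ (20 * (Nat.log 2 (20 * (T + 1)) + 1)) ^ 20 :=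
            Nat.pow_le_pow_left (Nat.mul_le_mul_left _ hb1L) 20
        _ ≤ K * T := hK T (by omega)
    have hq2 : 2 * q ≤ 2 ^ ((Cq + 1) * (c + 1)) := by
      calc 2 * q ≤ 2 * 2 ^ (Cq * (c + 1)) := Nat.mul_le_mul_left _ hq
        _ = 2 ^ (Cq * (c + 1) + 1) := by rw [pow_succ]; ring
        _ ≤ 2 ^ ((Cq + 1) * (c + 1)) := by
            refine Nat.pow_le_pow_right (by norm_num) ?_
            have e : (Cq + 1) * (c + 1) = Cq * (c + 1) + (c + 1) := by ring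
            omega
    have hexp := parm_ineq hcb hb10 hw
    calc (2 * q) ^ (4 * 32 ^ b₂) ≤ (2 ^ ((Cq + 1) * (c + 1))) ^ (4 * 32 ^ b₂) :=
          Nat.pow_le_pow_left hq2 _
      _ = 2 ^ ((Cq + 1) * (c + 1) * (4 * 32 ^ b₂)) := by rw [← pow_mul]
      _ ≤ 2 ^ (5 * T) := Nat.pow_le_pow_right (by norm_num) hexp
      _ = 32 ^ T := by
        rw [pow_mul]
        norm_num
      _ ≤ n := hT1

end Pool.Agent.MPfe8e9bU
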