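import Mathlib
import Pool.Agent.Lib.MP_fe8e9b_al_U.Defs

/-!
# MP_fe8e9b_al, iterated wreath products over all transitive actions: products of commutators
-/

set_option autoImplicit false

open scoped BigOperators

namespace Pool.Agent.MPfe8e9bU

open Pool.Agent.MPfe8e9b Pool.Agent.MPfe8e9bA Pool.Agent.MPfe8e9bW Pool.Agent.MPfe8e9bV

theorem cp_zero_iff {G : Type} [Group G] (g : G) : CP 0 g ↔ g = 1 := by
  constructor
  · rintro ⟨u, w, hg⟩
    rw [hg, List.ofFn_zero, List.prod_nil]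
  · intro hg
    exact ⟨fun _ => 1, fun _ => 1, by rw [hg, List.ofFn_zero, List.prod_nil]⟩

theorem cp_succ_iff {G : Type} [Group G] (m : ℕ) (g : G) :
    CP (m + 1) g ↔ ∃ a b c : G, CP m c ∧ g = cm a b * c := by
  constructor
  · rintro ⟨u, w, hg⟩
    refine ⟨u 0, w 0, _, ⟨fun i => u i.succ, fun i => w i.succ, rfl⟩, ?_⟩
    rw [hg, List.ofFn_succ, List.prod_cons]
  · rintro ⟨a, b, c, ⟨u, w, hc⟩, hg⟩
    refine ⟨Fin.cons a u, Fin.cons b w, ?_⟩
    rw [hg, hc, List.ofFn_succ, List.prod_cons]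
    simp only [Fin.cons_zero, Fin.cons_succ]

theorem cp_one {G : Type} [Group G] (m : ℕ) : CP m (1 : G) := by
  induction m with
  | zero => exact (cp_zero_iff 1).2 rfl
  | succ m ih => exact (cp_succ_iff m 1).2 ⟨1, 1, 1, ih, by rw [cm_one_left, one_mul]⟩

theorem cp_cm {G : Type} [Group G] (u w : G) : CP 1 (cm u w) :=
  (cp_succ_iff 0 _).2 ⟨u, w, 1, cp_one 0, (mul_one _).symm⟩

theorem CP.mul {G : Type} [Group G] {m n : ℕ} {g h : G} (hg : CP m g) (hh : CP n h) :
    CP (m + n) (g * h) := by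
  induction m generalizing g with
  | zero =>
    rw [(cp_zero_iff g).1 hg, one_mul, zero_add]
    exact hh
  | succ m ih =>
    obtain ⟨a, b, c, hc, he⟩ := (cp_succ_iff m g).1 hg
    rw [add_right_comm]
    exact (cp_succ_iff (m + n) _).2 ⟨a, b, c * h, ih hc, by rw [he, mul_assoc]⟩

theorem CP.mono {G : Type} [Group G] {m n : ℕ} (hmn : m ≤ n) {g : G} (hg : CP m g) : CP n g := by
  obtain ⟨k, rfl⟩ := Nat.exists_eq_add_of_le hmn
  have h := hg.mul (cp_one (G := G) k)
  rwa [mul_one] at h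

theorem CP.map {G H : Type} [Group G] [Group H] (f : G →* H) {m : ℕ} {g : G} (hg : CP m g) :
    CP m (f g) := by
  induction m generalizing g with
  | zero =>
    rw [(cp_zero_iff g).1 hg, map_one]
    exact cp_one 0
  | succ m ih =>
    obtain ⟨a, b, c, hc, he⟩ := (cp_succ_iff m g).1 hg
    refine (cp_succ_iff m _).2 ⟨f a, f b, f c, ih hc, ?_⟩
    rw [he, map_mul, cm, cm, map_mul, map_mul, map_mul, map_inv, map_inv]

theorem CP.conj {G : Type} [Group G] {m : ℕ} {g : G} (hg : CP m g) (x : G) :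
    CP m (x * g * x⁻¹) :=
  hg.map (MulAut.conj x).toMonoidHom

theorem cp_pi {I : Type} {G : I → Type} [∀ i, Group (G i)] {m : ℕ} {f : ∀ i, G i}
    (h : ∀ i, CP m (f i)) : CP m f := by
  induction m generalizing f with
  | zero =>
    refine (cp_zero_iff f).2 (funext fun i => ?_)
    exact (cp_zero_iff (f i)).1 (h i)
  | succ m ih =>
    have h1 : ∀ i, ∃ a b c : G i, CP m c ∧ f i = cm a b * c := fun i =>
      (cp_succ_iff m (f i)).1 (h i)
    choose a b c hc he using h1
    exact (cp_succ_iff m f).2 ⟨a, b, c, ih hc, funext fun i => he i⟩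

/-- A product of `m + n` commutators is a product of two factors. -/
theorem CP.split {G : Type} [Group G] {m n : ℕ} {g : G} (hg : CP (m + n) g) :
    ∃ a b : G, CP m a ∧ CP n b ∧ g = a * b := by
  induction m generalizing g with
  | zero =>
    rw [zero_add] at hg
    exact ⟨1, g, cp_one 0, hg, (one_mul g).symm⟩
  | succ m ih =>
    rw [add_right_comm] at hg
    obtain ⟨a, b, c, hc, he⟩ := (cp_succ_iff (m + n) g).1 hg
    obtain ⟨a', b', ha', hb', hab⟩ := ih hc
    exact ⟨cm a b * a', b', (cp_succ_iff m _).2 ⟨a, b, a', ha', rfl⟩, hb', by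
      rw [he, hab, mul_assoc]⟩

theorem Wd.mono {G : Type} [Group G] {m n : ℕ} (hmn : m ≤ n) (h : Wd m G) : Wd n G :=
  fun g => (h g).mono hmn

theorem Wd.iso {G H : Type} [Group G] [Group H] (e : G ≃* H) {m : ℕ} (h : Wd m G) : Wd m H := by
  intro g
  have h1 := (h (e.symm g)).map e.toMonoidHom
  have h2 : e.toMonoidHom (e.symm g) = g := e.apply_symm_apply g
  rwa [h2] at h1

/-- Proof. A commutator lies in the commutator subgroup. -/
theorem Wd.perfect {G : Type} [Group G] {m : ℕ} (h : Wd m G) : commutator G = ⊤ := by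
  rw [eq_top_iff]
  intro g _
  obtain ⟨u, w, hg⟩ := h g
  rw [hg]
  refine Subgroup.list_prod_mem _ fun x hx => ?_
  obtain ⟨i, rfl⟩ := (List.mem_ofFn' _ _).1 hx
  exact Subgroup.commutator_mem_commutator (Subgroup.mem_top (u i)) (Subgroup.mem_top (w i))

end Pool.Agent.MPfe8e9bU
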