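import Mathlib
import Pool.Agent.Lib.MP_fe8e9b_al_U.Defs

/-!
# MP_fe8e9b_al, iterated wreath products over all transitive actions: the bootstrapping
-/

set_option autoImplicit false

open scoped BigOperators

namespace Pool.Agent.MPfe8e9bU

open Pool.Agent.MPfe8e9b Pool.Agent.MPfe8e9bA Pool.Agent.MPfe8e9bW Pool.Agent.MPfe8e9bV

/-- Stage 1: a linear bound. -/
theorem bt3_stage1 (Bd : ℕ → ℕ → Prop) (C₀ C₁ : ℕ) (hC₁ : 0 < C₁)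
    (hdown : ∀ h h' c, h ≤ h' → Bd h' c → Bd h c) (hex : ∀ h, ∃ c, Bd h c)
    (hadd : ∀ a b c c', 0 < b → (C₁ * (c + 1)) ^ 3 ≤ b ^ 2 → Bd a c → Bd b c' →
      Bd (a + b) (c' + C₀)) : ∃ C', ∀ h, Bd h (C' + h * C₀) := by
  obtain ⟨c₁, hc₁⟩ := hex 1
  obtain ⟨C', hC'⟩ := hex ((C₁ * (c₁ + 1)) ^ 3)
  have hpos : 0 < (C₁ * (c₁ + 1)) ^ 3 := Nat.pow_pos (Nat.mul_pos hC₁ (Nat.succ_pos _))
  have key : ∀ i, Bd ((C₁ * (c₁ + 1)) ^ 3 + i) (C' + i * C₀) := by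
    intro i
    induction i with
    | zero => simpa using hC'
    | succ i ih =>
      have h0 : 0 < (C₁ * (c₁ + 1)) ^ 3 + i := by omega
      have h2 : (C₁ * (c₁ + 1)) ^ 3 ≤ ((C₁ * (c₁ + 1)) ^ 3 + i) ^ 2 := by
        calc (C₁ * (c₁ + 1)) ^ 3 ≤ (C₁ * (c₁ + 1)) ^ 3 + i := Nat.le_add_right _ _
          _ ≤ ((C₁ * (c₁ + 1)) ^ 3 + i) ^ 2 := Nat.le_self_pow (by norm_num) _
      have h3 := hadd 1 ((C₁ * (c₁ + 1)) ^ 3 + i) c₁ (C' + i * C₀) h0 h2 hc₁ ih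
      have e1 : 1 + ((C₁ * (c₁ + 1)) ^ 3 + i) = (C₁ * (c₁ + 1)) ^ 3 + (i + 1) := by omega
      have e2 : C' + i * C₀ + C₀ = C' + (i + 1) * C₀ := by ring
      rw [e1, e2] at h3
      exact h3
  exact ⟨C', fun h => hdown h _ _ (Nat.le_add_left _ _) (key h)⟩

/-- Stage 2: one height at which the bound is small against the height. -/
theorem bt3_stage2 (Bd : ℕ → ℕ → Prop) (C₀ C₁ : ℕ) (hC₁ : 0 < C₁) (C' : ℕ)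
    (h1 : ∀ h, Bd h (C' + h * C₀))
    (hadd : ∀ a b c c', 0 < b → (C₁ * (c + 1)) ^ 3 ≤ b ^ 2 → Bd a c → Bd b c' →
      Bd (a + b) (c' + C₀)) :
    ∃ b c, 0 < b ∧ (C₁ * (c + C₀ + 1)) ^ 3 ≤ b ^ 2 ∧ Bd b c := by
  obtain ⟨A, hA⟩ : ∃ A, A = C' + C₀ + 1 := ⟨_, rfl⟩
  obtain ⟨K, hK⟩ : ∃ K, K = (C₁ * A) ^ 3 := ⟨_, rfl⟩
  obtain ⟨A', hA'⟩ : ∃ A', A' = C' + 3 * C₀ + 1 := ⟨_, rfl⟩
  obtain ⟨e, he⟩ : ∃ e, e = (C₁ * A') ^ 3 * K := ⟨_, rfl⟩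
  have hKpos : 0 < K := by
    rw [hK]
    exact Nat.pow_pos (Nat.mul_pos hC₁ (by omega))
  have hepos : 0 < e := by
    rw [he]
    exact Nat.mul_pos (Nat.pow_pos (Nat.mul_pos hC₁ (by omega))) hKpos
  have hapos : 0 < e ^ 2 := Nat.pow_pos hepos
  have hb₀pos : 0 < K * e ^ 3 := Nat.mul_pos hKpos (Nat.pow_pos hepos)
  have hc : C' + e ^ 2 * C₀ + 1 ≤ A * e ^ 2 := by
    have : C' * 1 ≤ C' * e ^ 2 := Nat.mul_le_mul_left _ hapos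
    rw [hA]
    nlinarith
  have hc3 : (C₁ * (C' + e ^ 2 * C₀ + 1)) ^ 3 ≤ (K * e ^ 3) ^ 2 := by
    calc (C₁ * (C' + e ^ 2 * C₀ + 1)) ^ 3 ≤ (C₁ * (A * e ^ 2)) ^ 3 :=
          Nat.pow_le_pow_left (Nat.mul_le_mul_left _ hc) 3
      _ = K * e ^ 6 := by rw [hK]; ring
      _ ≤ (K * K) * e ^ 6 := Nat.mul_le_mul_right _ (Nat.le_mul_of_pos_left _ hKpos)
      _ = (K * e ^ 3) ^ 2 := by ring
  have key : ∀ i, Bd (K * e ^ 3 + i * e ^ 2) (C' + K * e ^ 3 * C₀ + i * C₀) := by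
    intro i
    induction i with
    | zero => simpa using h1 (K * e ^ 3)
    | succ i ih =>
      have h0 : 0 < K * e ^ 3 + i * e ^ 2 := by omega
      have h2 : (C₁ * (C' + e ^ 2 * C₀ + 1)) ^ 3 ≤ (K * e ^ 3 + i * e ^ 2) ^ 2 :=
        hc3.trans (Nat.pow_le_pow_left (Nat.le_add_right _ _) 2)
      have h3 := hadd (e ^ 2) (K * e ^ 3 + i * e ^ 2) (C' + e ^ 2 * C₀) _ h0 h2 (h1 _) ih
      have e1 : e ^ 2 + (K * e ^ 3 + i * e ^ 2) = K * e ^ 3 + (i + 1) * e ^ 2 := by ring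
      have e2 : C' + K * e ^ 3 * C₀ + i * C₀ + C₀ = C' + K * e ^ 3 * C₀ + (i + 1) * C₀ := by
        ring
      rw [e1, e2] at h3
      exact h3
  refine ⟨_, _, ?_, ?_, key (K * e ^ 3)⟩
  · omega
  · have hcc : C' + K * e ^ 3 * C₀ + K * e ^ 3 * C₀ + C₀ + 1 ≤ A' * (K * e ^ 3) := by
      obtain ⟨b₀, hb₀⟩ : ∃ b₀, b₀ = K * e ^ 3 := ⟨_, rfl⟩
      rw [← hb₀] at hb₀pos ⊢
      have h5 : C' * 1 ≤ C' * b₀ := Nat.mul_le_mul_left _ hb₀pos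
      have h6 : C₀ * 1 ≤ C₀ * b₀ := Nat.mul_le_mul_left _ hb₀pos
      rw [hA']
      nlinarith
    calc (C₁ * (C' + K * e ^ 3 * C₀ + K * e ^ 3 * C₀ + C₀ + 1)) ^ 3
        ≤ (C₁ * (A' * (K * e ^ 3))) ^ 3 := Nat.pow_le_pow_left (Nat.mul_le_mul_left _ hcc) 3
      _ = ((C₁ * A') ^ 3 * K) * e ^ 3 * (K * e ^ 3) ^ 2 := by ring
      _ = (K * e ^ 3 * e ^ 2) ^ 2 := by rw [← he]; ring
      _ ≤ (K * e ^ 3 + K * e ^ 3 * e ^ 2) ^ 2 :=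
          Nat.pow_le_pow_left (Nat.le_add_left _ _) 2

/-- Stage 3: the uniform bound. -/
theorem bt3_stage3 (Bd : ℕ → ℕ → Prop) (C₀ C₁ : ℕ)
    (hmono : ∀ h c c', c ≤ c' → Bd h c → Bd h c')
    (hdown : ∀ h h' c, h ≤ h' → Bd h' c → Bd h c)
    (hadd : ∀ a b c c', 0 < b → (C₁ * (c + 1)) ^ 3 ≤ b ^ 2 → Bd a c → Bd b c' →
      Bd (a + b) (c' + C₀)) (b c : ℕ) (hb0 : 0 < b)
    (hb : (C₁ * (c + C₀ + 1)) ^ 3 ≤ b ^ 2) (hbc : Bd b c) : ∀ h, Bd h (c + C₀) := by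
  intro h
  induction h using Nat.strong_induction_on with
  | _ h ih =>
    rcases Nat.le_total h b with hh | hh
    · exact hmono h c (c + C₀) (Nat.le_add_right _ _) (hdown h b c hh hbc)
    · have h1 := ih (h - b) (by omega)
      have h2 := hadd (h - b) b (c + C₀) c hb0 hb h1 hbc
      rwa [Nat.sub_add_cancel hh] at h2

/-- The bootstrapping (pure arithmetic).

Proof. Stage 1: `c₁` with `Bd 1 c₁`, `b₁ ≥ 1` with `(C₁ (c₁ + 1)) ^ 3 ≤ b₁ ^ 2`, `Bd b₁ C'`. By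
`hadd` (`a = 1`) and induction `Bd (b₁ + i) (C' + i * C₀)`, so `Bd h (C' + C₀ * h)` for all `h`
(`hdown`, `hmono`). Stage 2: let `A = C' + C₀ + 1`, `K = (C₁ * A) ^ 3` (so `K ^ 2 ≥ C₁ ^ 3 A ^
3`), `A' = C' + 3 C₀ + 1`, `e = (C₁ * A') ^ 3 * K`, `a = e ^ 2`, `b₀ = K * e ^ 3`. `Bd a (C' + C₀
a)`, `C' + C₀ a + 1 ≤ A a`, `(C₁ (C' + C₀ a + 1)) ^ 3 ≤ (C₁ A) ^ 3 * e ^ 6 ≤ b₀ ^ 2`. By `hadd`
and induction `Bd (b₀ + i * a) (C' + C₀ b₀ + i C₀)`; take `i = b₀`: `b = b₀ + b₀ a`, `c = C' + 2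
C₀ b₀`, `c + C₀ + 1 ≤ A' b₀`, `(C₁ (c + C₀ + 1)) ^ 3 ≤ (C₁ A') ^ 3 b₀ ^ 3 ≤ (b₀ a) ^ 2 ≤ b ^ 2`
since `(C₁ A') ^ 3 * b₀ = (C₁ A') ^ 3 K e ^ 3 = e ^ 4 = a ^ 2`. Stage 3: `Bd h (c + C₀)` for all
`h` by strong induction: `h ≤ b` by `hdown`; `h = a' + b`, `a' < h`, by `hadd` (compare `bd_all`
in W/Boot). -/
theorem boot3 (Bd : ℕ → ℕ → Prop) (C₀ C₁ : ℕ) (hC₁ : 0 < C₁)
    (hmono : ∀ h c c', c ≤ c' → Bd h c → Bd h c')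
    (hdown : ∀ h h' c, h ≤ h' → Bd h' c → Bd h c) (hex : ∀ h, ∃ c, Bd h c)
    (hadd : ∀ a b c c', 0 < b → (C₁ * (c + 1)) ^ 3 ≤ b ^ 2 → Bd a c → Bd b c' →
      Bd (a + b) (c' + C₀)) : ∃ c, ∀ h, Bd h c := by
  obtain ⟨C', h1⟩ := bt3_stage1 Bd C₀ C₁ hC₁ hdown hex hadd
  obtain ⟨b, c, hb0, hb, hbc⟩ := bt3_stage2 Bd C₀ C₁ hC₁ C' h1 hadd
  exact ⟨c + C₀, bt3_stage3 Bd C₀ C₁ hmono hdown hadd b c hb0 hb hbc⟩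

end Pool.Agent.MPfe8e9bU
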