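import Mathlib
import Pool.Agent.Lib.MP_fe8e9b_al_W.MixQ
import Pool.Agent.Lib.MP_fe8e9b_al_V.DnA
import Pool.Agent.Lib.MP_fe8e9b_al_V.FrqE
import Pool.Agent.Lib.MP_fe8e9b_al_U.LvM
import Pool.Agent.Lib.MP_fe8e9b_al_U.ParM

/-!
# MP_fe8e9b_al, iterated wreath products over all transitive actions: the vectors
-/

set_option autoImplicit false

open scoped BigOperators

namespace Pool.Agent.MPfe8e9bU

open Pool.Agent.MPfe8e9b Pool.Agent.MPfe8e9bA Pool.Agent.MPfe8e9bW Pool.Agent.MPfe8e9bV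

/-- Existence of the vectors.

Proof. As `vec` in V/Vec. `Cq` from `mix_cost` (a group with `Cost c` has a list of length
`0 < q ≤ 2 ^ (Cq * (c + 1))` with `Mix y (1/100)`), `C` from `level_m D`, `N` from `dense_exists`,
`C₁'` from `par_m Cq`. Take `C₁ ≥ C₁'` so large that `b ≥ C₁ * (c + 1)` (which follows from the
hypothesis: if `b < C₁ (c + 1) = t` then `b ^ 2 < t ^ 2 ≤ t ^ 3`) implies
`2 ^ b ≥ C * 2 ^ (50 * Cq * (c + 1))`, `2 ^ b ≥ N`, `2 ^ b ≥ 2 * 2 ^ (Cq * (c + 1))`; for instance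
`C₁ = C₁' + 50 * Cq + C + N + 1` (`C ≤ 2 ^ C`). Level `e = 0` is `(b₁, S₁)`, level `e = 1` is
`(b₂, S₂)`; `10 S ≤ 2 ^ b ≤ D 2 ^ b`. -/
theorem vec_m (D M : ℕ) (hD : 0 < D) : ∃ C₁ : ℕ, 0 < C₁ ∧ ∀ (K X : Type) [Group K] [Fintype K]
      [Fintype X] (α : K →* Equiv.Perm X), (∀ x y : X, ∃ p, α p x = y) → ∀ c b : ℕ,
      (C₁ * (c + 1)) ^ 3 ≤ b ^ 2 → 2 ^ b ≤ Fintype.card X →
      ∀ (G : Type) [Group G] [Fintype G], commutator G = ⊤ → Wd M G → Cost c G →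
      ∃ Y : TI M → X → G, GoodM α D M Y := by
  classical
  obtain ⟨Cq, hC⟩ := mix_cost
  obtain ⟨CL, hCL⟩ := level_m D hD
  obtain ⟨ND, hND⟩ := dense_exists
  obtain ⟨CP', hCP', hpar⟩ := par_m Cq
  refine ⟨CP' + 50 * Cq + CL + ND + 1, by omega, ?_⟩
  intro K X _ _ _ α htr c b hb hbX G _ _ hperf hwd hcost
  obtain ⟨q, y, hq0, hqQ, hy⟩ := hC c G hcost
  have hb1 : (CP' + 50 * Cq + CL + ND + 1) * (c + 1) ≤ b := by
    by_contra hlt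
    have hlt' : b < (CP' + 50 * Cq + CL + ND + 1) * (c + 1) := not_le.1 hlt
    have hpos : 0 < (CP' + 50 * Cq + CL + ND + 1) * (c + 1) := by positivity
    have h1 : b ^ 2 < ((CP' + 50 * Cq + CL + ND + 1) * (c + 1)) ^ 2 :=
      Nat.pow_lt_pow_left hlt' (by norm_num)
    have h2 : ((CP' + 50 * Cq + CL + ND + 1) * (c + 1)) ^ 2 ≤
        ((CP' + 50 * Cq + CL + ND + 1) * (c + 1)) ^ 3 :=
      Nat.pow_le_pow_right hpos (by norm_num)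
    omega
  have hexp : (CP' + 50 * Cq + CL + ND + 1) * (c + 1) =
      CP' * (c + 1) + 50 * (Cq * (c + 1)) + CL * (c + 1) + ND * (c + 1) + (c + 1) := by ring
  have hCLc : CL ≤ CL * (c + 1) := Nat.le_mul_of_pos_right _ (Nat.succ_pos c)
  have hNDc : ND ≤ ND * (c + 1) := Nat.le_mul_of_pos_right _ (Nat.succ_pos c)
  have hpar1 : (CP' * (c + 1)) ^ 3 ≤ b ^ 2 :=
    (Nat.pow_le_pow_left (Nat.mul_le_mul_right _ (by omega)) 3).trans hb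
  obtain ⟨b₁, b₂, S₁, S₂, hS₁, hS₂, h10₁, h10₂, hbb, h32, h32', hq⟩ :=
    hpar c b (Fintype.card X) q hpar1 hbX hqQ
  have h2q : 2 * q ≤ Fintype.card X := by
    have h1 : 2 ^ (Cq * (c + 1) + 1) ≤ 2 ^ b := Nat.pow_le_pow_right (by norm_num) (by omega)
    have h2 : 2 ^ (Cq * (c + 1) + 1) = 2 ^ (Cq * (c + 1)) * 2 := pow_succ _ _
    omega
  have hNDX : ND ≤ Fintype.card X := by
    have h1 : ND < 2 ^ ND := Nat.lt_two_pow_self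
    have h2 : 2 ^ ND ≤ 2 ^ b := Nat.pow_le_pow_right (by norm_num) (by omega)
    omega
  have hCLX : CL * q ^ 50 ≤ Fintype.card X := by
    have h1 : CL ≤ 2 ^ CL := Nat.lt_two_pow_self.le
    have h2 : q ^ 50 ≤ (2 ^ (Cq * (c + 1))) ^ 50 := Nat.pow_le_pow_left hqQ 50
    have h3 : CL * q ^ 50 ≤ 2 ^ CL * (2 ^ (Cq * (c + 1))) ^ 50 := Nat.mul_le_mul h1 h2
    have h4 : 2 ^ CL * (2 ^ (Cq * (c + 1))) ^ 50 = 2 ^ (CL + Cq * (c + 1) * 50) := by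
      rw [← pow_mul, ← pow_add]
    have h5 : 2 ^ (CL + Cq * (c + 1) * 50) ≤ 2 ^ b :=
      Nat.pow_le_pow_right (by norm_num) (by omega)
    exact h3.trans (h4.le.trans (h5.trans hbX))
  obtain ⟨Y0, hY0⟩ := frq_exists (X := X) hq0 h2q y
  obtain ⟨Y1, hY1⟩ := hND K X α htr q (32 ^ b₂) hq0 hq hNDX G y
  have hD1 : ∀ b : ℕ, 2 ^ b ≤ D * 2 ^ b := fun b => Nat.le_mul_of_pos_left _ hD
  obtain ⟨z₁, z₁', hz₁⟩ := hCL q hq0 K X α htr b₁ S₁ hS₁ (h10₁.trans (hD1 b₁)) h32 hCLX M G y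
    (fun j => hwd (y j))
  have h32₂ : 32 ^ (b₂ + S₂ - 1) ≤ Fintype.card X :=
    (Nat.pow_le_pow_right (by norm_num) (by omega)).trans h32
  obtain ⟨z₂, z₂', hz₂⟩ := hCL q hq0 K X α htr b₂ S₂ hS₂ (h10₂.trans (hD1 b₂)) h32₂ hCLX M G y
    (fun j => hwd (y j))
  refine ⟨Sum.elim (fun t => cond t Y1 Y0) (fun p => cond p.1.1
    ((![z₁', z₂'] : Fin 2 → Fin M → X → G) p.1.2 p.2)
    ((![z₁, z₂] : Fin 2 → Fin M → X → G) p.1.2 p.2)),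
    q, 32 ^ b₂, y, hq0, hy, hY0, hY1, fun a ha1 ha2 => ?_⟩
  have h1 : b₂ < a + 1 := (Nat.pow_lt_pow_iff_right (by norm_num)).1 ha1
  have h2 : a < b₁ + S₁ := (Nat.pow_lt_pow_iff_right (by norm_num)).1 (ha2.trans_lt h32')
  rcases Nat.lt_or_ge a b₁ with h3 | h3
  · exact ⟨1, hz₂ a (by omega) (by omega)⟩
  · exact ⟨0, hz₁ a h3 h2⟩

end Pool.Agent.MPfe8e9bU
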