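import Mathlib
import Pool.Agent.Lib.MP_fe8e9b_al_V.Dec2
import Pool.Agent.Lib.MP_fe8e9b_al_V.Semi2
import Pool.Agent.Lib.MP_fe8e9b_al_W.ExpPi
import Pool.Agent.Lib.MP_fe8e9b_al_U.VecM
import Pool.Agent.Lib.MP_fe8e9b_al_U.Loc3M

/-!
# MP_fe8e9b_al, iterated wreath products over all transitive actions: the reset lemma
-/

set_option autoImplicit false

open scoped BigOperators

namespace Pool.Agent.MPfe8e9bU

open Pool.Agent.MPfe8e9b Pool.Agent.MPfe8e9bA Pool.Agent.MPfe8e9bW Pool.Agent.MPfe8e9bV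

theorem rst3_mu_pos {κ : ℝ} (hκ : 0 < κ) : 0 < mu κ := by
  unfold mu
  positivity

/-- The number `D`. -/
theorem rst3_exists_D {m : ℝ} (hm : 0 < m) : ∃ D : ℕ, 0 < D ∧ 2 ^ 23 ≤ m * (D : ℝ) ^ 5 := by
  obtain ⟨n, hn⟩ := exists_nat_ge (2 ^ 23 / m)
  refine ⟨n + 1, Nat.succ_pos n, ?_⟩
  rw [div_le_iff₀ hm] at hn
  have h0 : (0 : ℝ) ≤ n := Nat.cast_nonneg n
  have h1 : (1 : ℝ) ≤ ((n + 1 : ℕ) : ℝ) := by
    push_cast
    linarith
  have h2 : ((n + 1 : ℕ) : ℝ) ≤ ((n + 1 : ℕ) : ℝ) ^ 5 := by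
    calc ((n + 1 : ℕ) : ℝ) = ((n + 1 : ℕ) : ℝ) ^ 1 := (pow_one _).symm
      _ ≤ ((n + 1 : ℕ) : ℝ) ^ 5 := pow_le_pow_right₀ h1 (by norm_num)
  have h3 : (n : ℝ) ≤ ((n + 1 : ℕ) : ℝ) := by
    push_cast
    linarith
  calc (2 : ℝ) ^ 23 ≤ n * m := hn
    _ = m * n := mul_comm _ _
    _ ≤ m * ((n + 1 : ℕ) : ℝ) ^ 5 := mul_le_mul_of_nonneg_left (h3.trans h2) hm.le

theorem rst3_cst_nonneg (D M : ℕ) : 0 ≤ cstM D M := by
  have h := rst3_mu_pos (κ := 1 / 1024) (by norm_num)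
  unfold cstM
  positivity

/-- The reset lemma.

Proof. As `reset2` in V/Rst2: `D ≥ 1` with `2 ^ 23 ≤ mu (1/1024) * D ^ 5`, `C = cstM D M`,
`C₁` from `vec_m D M`, `r = card (TI M) = 2 + 4 M`, `C₀` with
`(r + 1) * (8 * r * C + 1) ≤ 2 ^ C₀`. `dec2` with `L = TI M × P`, `loc3_m`, `gap_semi_r` for
`y = fun t => Y ((Fintype.equivFin (TI M)).symm t)`. -/
theorem reset3 (M : ℕ) (hM : 0 < M) : ∃ C₀ C₁ : ℕ, 0 < C₁ ∧ ∀ (c b c' : ℕ) (P I : Type)
    [Group P] [Finite I] (X : I → Type) [∀ i, Finite (X i)] (α : ∀ i, P →* Equiv.Perm (X i)),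
    Ind α → ∀ (G : I → Type) [∀ i, Group (G i)], (∀ i, commutator (G i) = ⊤) →
    (∀ i, Wd M (G i)) → (∀ i, Cost c (G i)) → Cost c' P → (∀ i, 2 ^ b ≤ Nat.card (X i)) →
    (C₁ * (c + 1)) ^ 3 ≤ b ^ 2 → Cost (c' + C₀) (Wr α G) := by
  classical
  obtain ⟨D, hD, hD5⟩ := rst3_exists_D (rst3_mu_pos (κ := 1 / 1024) (by norm_num))
  obtain ⟨C, hC⟩ : ∃ C, C = cstM D M := ⟨_, rfl⟩
  have hC0 : 0 ≤ C := hC ▸ rst3_cst_nonneg D M
  obtain ⟨r, hr⟩ : ∃ r : ℕ, r = Fintype.card (TI M) := ⟨_, rfl⟩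
  obtain ⟨C₀, hC₀⟩ := pow_unbounded_of_one_lt (((r : ℝ) + 1) * (8 * (r : ℝ) * C + 1)) one_lt_two
  obtain ⟨C₁, hC₁, hvec⟩ := vec_m D M hD
  refine ⟨C₀, C₁, hC₁, ?_⟩
  intro c b c' P I _ _ X _ α hα G _ hG hW hcost hP hX hb
  obtain ⟨k, κ, hκ, hκ1, hkc, instP, hPe⟩ := hP
  have : Fintype I := Fintype.ofFinite I
  have : ∀ i, Fintype (X i) := fun i => Fintype.ofFinite _
  have hGf : ∀ i, Nonempty (Fintype (G i)) := by
    intro i
    obtain ⟨_, _, _, _, _, inst, _⟩ := hcost i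
    exact ⟨inst⟩
  have : ∀ i, Fintype (G i) := fun i => (hGf i).some
  have : ∀ i, Fintype (Ki α i) := fun i => Fintype.ofFinite _
  have hY : ∀ i, ∃ Y : TI M → X i → G i, GoodM ((α i).comp (Ki α i).subtype) D M Y := by
    intro i
    refine hvec (Ki α i) (X i) _ ?_ c b hb ?_ (G i) (hG i) (hW i) (hcost i)
    · intro x y
      obtain ⟨p, hp, hpx⟩ := hα i x y
      exact ⟨⟨p, hp⟩, hpx⟩
    · rw [← Nat.card_eq_fintype_card]
      exact hX i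
  choose Y hY using hY
  obtain ⟨e⟩ : Nonempty (TI M ≃ Fin r) := by
    rw [hr]
    exact ⟨Fintype.equivFin (TI M)⟩
  have hgap := gap_semi_r (wrAct α G) (fun (t : Fin r) i => Y i (e.symm t)) C hC0 ?_ hκ hκ1 hPe
  · refine ⟨k + r, _, ?_, ?_, ?_, hgap⟩
    · positivity
    · refine (div_le_self hκ.le ?_).trans hκ1
      have : 0 ≤ 8 * (r : ℝ) * C := by positivity
      linarith
    · have h2 : (0 : ℝ) < 8 * (r : ℝ) * C + 1 := by positivity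
      have h3 : (0 : ℝ) ≤ k := Nat.cast_nonneg k
      have h5 : (0 : ℝ) ≤ r := Nat.cast_nonneg r
      have h4 : 0 ≤ κ * 2 ^ c' := by positivity
      rw [div_mul_eq_mul_div, le_div_iff₀ h2, pow_add]
      push_cast
      calc ((k : ℝ) + r + 1) * (8 * (r : ℝ) * C + 1) ≤
            ((r + 1) * (k + 1)) * (8 * (r : ℝ) * C + 1) := by
            refine mul_le_mul_of_nonneg_right ?_ h2.le
            nlinarith
        _ = (k + 1) * ((r + 1) * (8 * (r : ℝ) * C + 1)) := by ring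
        _ ≤ (κ * 2 ^ c') * 2 ^ C₀ :=
            mul_le_mul hkc hC₀.le (by positivity) h4
        _ = κ * (2 ^ c' * 2 ^ C₀) := by ring
  · intro V _ _ _ ρ v hv
    have key := dec2 (K := Σ i, X i) (fun s => G s.1) (fun s => sgl G s.1 s.2)
      (fun s m => sgl_normal G s.1 s.2 m) (fun Q hQ => sgl_gen G Q (fun i x a => hQ ⟨i, x⟩ a))
      (L := TI M × P) (fun l => wrAct α G l.2 (fun i => Y i l.1))
      (C * ((Fintype.card P : ℝ))⁻¹) (by positivity) ρ ?_ v hv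
    · rw [Fintype.sum_prod_type, mul_assoc, Finset.mul_sum] at key
      have hsum : ∑ t : Fin r, mn (fun g : P =>
          ‖ρ (wrAct α G g (fun i => Y i (e.symm t))) v - v‖ ^ 2) =
          ∑ t : TI M, mn (fun g : P => ‖ρ (wrAct α G g (fun i => Y i t)) v - v‖ ^ 2) :=
        Equiv.sum_comp e.symm (fun t : TI M =>
          mn (fun g : P => ‖ρ (wrAct α G g (fun i => Y i t)) v - v‖ ^ 2))
      rw [hsum]
      exact key
    · intro u hu hu0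
      obtain ⟨⟨i, x⟩, hx⟩ := hu0
      have hloc := loc3_m hD hM hD5 α hα G i (hG i) (fun t i => Y i t) (hY i) ρ u
        (fun x => hu ⟨i, x⟩) ⟨x, hx⟩
      rw [← hC] at hloc
      rw [Fintype.sum_prod_type, mul_assoc, Finset.mul_sum]
      exact hloc

end Pool.Agent.MPfe8e9bU
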