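import Mathlib
import Pool.Agent.Lib.MP_fe8e9b_al_U.Rst3
import Pool.Agent.Lib.MP_fe8e9b_al_W.Perf

/-!
# MP_fe8e9b_al, iterated wreath products over all transitive actions: one step
-/

set_option autoImplicit false

open scoped BigOperators

namespace Pool.Agent.MPfe8e9bU

open Pool.Agent.MPfe8e9b Pool.Agent.MPfe8e9bA Pool.Agent.MPfe8e9bW Pool.Agent.MPfe8e9bV

/-- One step, without a condition on the sets.

Proof. Let `b = (C₁ * (c + 1)) ^ 2`, so `b ^ 2 ≥ (C₁ * (c + 1)) ^ 3`. If `2 ^ b ≤ Nat.card (X i)`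
for all `i`, `hres`. Otherwise `I` has exactly one element `i` and `Nat.card (X i) < 2 ^ b`. `Wr α
G` is an extension of `P` (`SemidirectProduct.rightHom`) by `∀ i, X i → G i`
(`SemidirectProduct.inl`), which has `FExpd _ (2 ^ b * 2 ^ c) (1 / 2 ^ c)` (`Cost.fexpd`,
`fexpd_pi` twice, first with `K = X i`, then `K = I`, `Nat.card I ≤ 1`); `P` has `FExpd P (2 ^ c')
(1 / 2 ^ c')`; `fexpd_extension` with `κ = 1 / 2 ^ (c + c')` (`FExpd.mono`), and `exists_cost`. -/
theorem crude3 {M C₀ C₁ : ℕ} (hres : ∀ (c b c' : ℕ) (P I : Type)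
      [Group P] [Finite I] (X : I → Type) [∀ i, Finite (X i)]
      (α : ∀ i, P →* Equiv.Perm (X i)),
      Ind α → ∀ (G : I → Type) [∀ i, Group (G i)], (∀ i, commutator (G i) = ⊤) →
      (∀ i, Wd M (G i)) → (∀ i, Cost c (G i)) → Cost c' P → (∀ i, 2 ^ b ≤ Nat.card (X i)) →
      (C₁ * (c + 1)) ^ 3 ≤ b ^ 2 → Cost (c' + C₀) (Wr α G)) (hC₁ : 0 < C₁) (c c' : ℕ) :
    ∃ c'' : ℕ, ∀ (P I : Type) [Group P] [Subsingleton I] (X : I → Type) [∀ i, Finite (X i)]
      (α : ∀ i, P →* Equiv.Perm (X i)), Tr α → ∀ (G : I → Type) [∀ i, Group (G i)],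
      (∀ i, commutator (G i) = ⊤) → (∀ i, Wd M (G i)) → (∀ i, Cost c (G i)) → Cost c' P →
      Cost c'' (Wr α G) := by
  classical
  have hC : 1 ≤ C₁ * (c + 1) := Nat.mul_pos hC₁ (Nat.succ_pos c)
  obtain ⟨b, hb⟩ : ∃ b : ℕ, (C₁ * (c + 1)) ^ 3 ≤ b ^ 2 := by
    refine ⟨(C₁ * (c + 1)) ^ 2, ?_⟩
    rw [← pow_mul]
    exact Nat.pow_le_pow_right hC (by norm_num)
  have hκ : (0 : ℝ) < 1 / 2 ^ (c + c') := by positivity
  obtain ⟨c1, hc1⟩ := exists_cost (1 * (2 ^ b * 2 ^ c) + 2 ^ c') hκ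
  refine ⟨max c1 (c' + C₀), ?_⟩
  intro P I _ _ X _ α hα G _ hG hw hc hP
  by_cases hX : ∀ i, 2 ^ b ≤ Nat.card (X i)
  · exact (hres c b c' P I X α hα.ind G hG hw hc hP hX hb).mono (le_max_right _ _)
  · obtain ⟨i, hi⟩ := not_forall.1 hX
    refine (hc1 _ ?_).mono (le_max_left _ _)
    have h1 : ∀ j, FExpd (X j → G j) (2 ^ b * 2 ^ c) (1 / 2 ^ c) := by
      intro j
      have hj : Nat.card (X j) ≤ 2 ^ b := by
        rw [Subsingleton.elim j i]
        exact (not_le.1 hi).le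
      exact fexpd_pi _ hj (fun _ => G j) (by positivity) (fun _ => (hc j).fexpd)
    have h2 : FExpd (∀ j, X j → G j) (1 * (2 ^ b * 2 ^ c)) (1 / 2 ^ c) :=
      fexpd_pi 1 (Finite.card_le_one_iff_subsingleton.2 inferInstance)
        (fun j => X j → G j) (by positivity) h1
    refine fexpd_extension SemidirectProduct.inl SemidirectProduct.rightHom
      SemidirectProduct.inl_injective SemidirectProduct.rightHom_surjective
      SemidirectProduct.range_inl_eq_ker_rightHom (h2.mono le_rfl ?_)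
      (hP.fexpd.mono le_rfl ?_)
    · exact one_div_le_one_div_of_le (by positivity)
        (pow_le_pow_right₀ (by norm_num) (Nat.le_add_right _ _))
    · exact one_div_le_one_div_of_le (by positivity)
        (pow_le_pow_right₀ (by norm_num) (Nat.le_add_left _ _))

end Pool.Agent.MPfe8e9bU
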