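import Mathlib
import Pool.Agent.Lib.MP_fe8e9b_al_U.Defs
import Pool.Agent.Lib.MP_fe8e9b_al_W.Assoc

/-!
# MP_fe8e9b_al, iterated wreath products over all transitive actions: splitting a tower
-/

set_option autoImplicit false

open scoped BigOperators

namespace Pool.Agent.MPfe8e9bU

open Pool.Agent.MPfe8e9b Pool.Agent.MPfe8e9bA Pool.Agent.MPfe8e9bW Pool.Agent.MPfe8e9bV

/-- Proof. Induction on the derivation. -/
theorem Tw.succ {k m : ℕ} {κ : ℝ} {h : ℕ} {G : Type} {inst : Group G}
    (hG : Tw k m κ h G inst) : Tw k m κ (h + 1) G inst := by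
  induction hG with
  | base h G inst hG hw => exact Tw.base _ G inst hG hw
  | step h P instP hP hw I hI X hX h2 α hα G instG _ ih =>
    exact Tw.step (h + 1) P instP hP hw I hI X hX h2 α hα G instG ih
  | iso h G H instG instH e _ ih => exact Tw.iso _ G H instG instH e ih

/-- Proof. Induction; `wr_perfect`, `perfect_iso`. -/
theorem Tw.perfect {k m : ℕ} {κ : ℝ} {h : ℕ} {G : Type} {inst : Group G}
    (hG : Tw k m κ h G inst) : commutator G = ⊤ := by
  induction hG with
  | base h G inst hG hw => exact hG.1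
  | step h P instP hP hw I hI X hX h2 α hα G instG _ ih =>
    have := hI
    have := hX
    exact wr_perfect α G hP.1 ih
  | iso h G H instG instH e _ ih => exact perfect_iso e ih

/-- The composition of transitive actions is transitive.

Proof. Move the first coordinate with `inr p`, then the second with
`inl` of an element with one nontrivial coordinate (compare `loc_cmp` in W/Assoc). -/
theorem tr_cmp {P I : Type} [Group P] {X : I → Type} (α : ∀ i, P →* Equiv.Perm (X i))
    (hα : Tr α) {Q : I → Type} [∀ i, Group (Q i)] {J : I → Type} {Y : ∀ i, J i → Type}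
    (β : ∀ i, ∀ j, Q i →* Equiv.Perm (Y i j)) (hβ : ∀ i, Tr (β i)) :
    Tr (fun s : Σ i, J i => cmp α β s) := by
  rintro ⟨i, j⟩ ⟨x, y⟩ ⟨x', y'⟩
  obtain ⟨p, hp⟩ := hα i x x'
  obtain ⟨q, hq⟩ := hβ i j y y'
  refine ⟨⟨sgl Q i x' q, p⟩, ?_⟩
  rw [cmp_apply]
  simp only [hp, assoc_sgl_same, hq]

/-- The conclusion of `split3`. -/
def Spl3P (k m : ℕ) (κ : ℝ) (a b : ℕ) (W : Type) [Group W] : Prop :=
  ∃ (B : Type) (instB : Group B) (I : Type) (_ : Subsingleton I) (X : I → Type)
      (_ : ∀ i, Finite (X i)) (α : ∀ i, B →* Equiv.Perm (X i)) (A : I → Type)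
      (instA : ∀ i, Group (A i)), Tw k m κ b B instB ∧ Tr α ∧
        (∀ i, 2 ^ b ≤ Nat.card (X i)) ∧ (∀ i, Tw k m κ a (A i) (instA i)) ∧
        Nonempty (W ≃* Wr α A)

theorem spl3_base {k m : ℕ} {κ : ℝ} (a b : ℕ) (G : Type) (inst : Group G)
    (hG : PE k κ G) (hw : Wd m G) : Spl3P k m κ a b G :=
  ⟨G, inst, PEmpty.{1}, inferInstance, fun _ => PUnit.{1}, fun _ => inferInstance,
    fun i => i.elim, fun _ => G, fun _ => inst, Tw.base b G inst hG hw, fun i => i.elim,
    fun i => i.elim, fun i => i.elim,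
    wr_empty (X := fun _ => PUnit.{1}) (fun i => i.elim) (fun _ => G)⟩

theorem spl3_aux {k m : ℕ} {κ : ℝ} (a : ℕ) {n : ℕ} {W : Type} {inst : Group W}
    (h : Tw k m κ n W inst) : ∀ b : ℕ, n = a + (b + 1) → Spl3P k m κ a (b + 1) W := by
  induction h with
  | base h G inst hG hw => exact fun b _ => spl3_base a (b + 1) G inst hG hw
  | iso h G H instG instH e _ ih =>
    intro b hb
    obtain ⟨B, instB, I, hI, X, hX, α, A, instA, h1, h2, h3, h4, ⟨e'⟩⟩ := ih b hb
    exact ⟨B, instB, I, hI, X, hX, α, A, instA, h1, h2, h3, h4, ⟨e.symm.trans e'⟩⟩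
  | step h P instP hP hw I hI X hX h2 α hα G instG hG ih =>
    intro b hb
    have := hI
    have := hX
    rcases b with _ | b
    · have hh : h = a := by omega
      subst hh
      refine ⟨P, instP, I, hI, X, hX, α, G, instG, Tw.base _ P instP hP hw, hα, fun i => ?_,
        hG, ⟨MulEquiv.refl _⟩⟩
      simpa using h2 i
    · have hh : h = a + (b + 1) := by omega
      choose B instB J hJ Y hY β A instA hB htr hcard hA he using fun i => ih i b hh
      obtain ⟨e1⟩ := wr_congr α G (fun i => Wr (β i) (A i)) (fun i => Classical.choice (he i))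
      obtain ⟨e2⟩ := wr_assoc α β A
      have hsub : Subsingleton (Σ i, J i) := by
        refine ⟨fun s s' => ?_⟩
        obtain ⟨i, j⟩ := s
        obtain ⟨i', j'⟩ := s'
        obtain rfl := Subsingleton.elim i i'
        have := hJ i
        obtain rfl := Subsingleton.elim j j'
        rfl
      have hfin : ∀ s : Σ i, J i, Finite (X s.1 × Y s.1 s.2) := by
        intro s
        have := hX s.1
        have := hY s.1 s.2
        infer_instance
      have hcd : ∀ s : Σ i, J i, 2 ^ (b + 1 + 1) ≤ Nat.card (X s.1 × Y s.1 s.2) := by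
        intro s
        rw [Nat.card_prod, pow_succ, mul_comm]
        exact Nat.mul_le_mul (h2 s.1) (hcard s.1 s.2)
      exact ⟨Wr α B, inferInstance, Σ i, J i, hsub, fun s => X s.1 × Y s.1 s.2,
        hfin, fun s => cmp α β s, fun s => A s.1 s.2, fun s => instA s.1 s.2,
        Tw.step (b + 1) P instP hP hw I hI X hX h2 α hα B instB hB, tr_cmp α hα β htr,
        hcd, fun s => hA s.1 s.2, ⟨e1.trans e2⟩⟩

/-- Splitting of a tower.

Proof. As `split` in W/Split, with `wr_assoc`, `wr_congr`, `wr_empty`, `tr_cmp`; a sigma type of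
subsingletons over a subsingleton is a subsingleton; `2 * 2 ^ (b + 1) ≤ Nat.card (X × Y)`. -/
theorem split3 {k m : ℕ} {κ : ℝ} (a b : ℕ) (W : Type) (inst : Group W)
    (h : Tw k m κ (a + (b + 1)) W inst) :
    ∃ (B : Type) (instB : Group B) (I : Type) (_ : Subsingleton I) (X : I → Type)
      (_ : ∀ i, Finite (X i)) (α : ∀ i, B →* Equiv.Perm (X i)) (A : I → Type)
      (instA : ∀ i, Group (A i)), Tw k m κ (b + 1) B instB ∧ Tr α ∧
        (∀ i, 2 ^ (b + 1) ≤ Nat.card (X i)) ∧ (∀ i, Tw k m κ a (A i) (instA i)) ∧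
        Nonempty (W ≃* Wr α A) := by
  exact spl3_aux a h b rfl

end Pool.Agent.MPfe8e9bU
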