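import Mathlib
import Pool.Agent.Lib.MP_fe8e9b_al_U.Cp

/-!
# MP_fe8e9b_al, iterated wreath products over all transitive actions: width of wreath products
-/

set_option autoImplicit false

open scoped BigOperators

namespace Pool.Agent.MPfe8e9bU

open Pool.Agent.MPfe8e9b Pool.Agent.MPfe8e9bA Pool.Agent.MPfe8e9bW Pool.Agent.MPfe8e9bV

/-- A transitive group on at least two points has an element without fixed points.

Proof. The mean over `σ` of the number of fixed points is one (for every `x` the mean of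
`ind (α σ x = x)` is `1 / card X`, by `mn_tr` with the indicator of `x`), and the identity has
`card X ≥ 2` fixed points; if all others had at least one, the mean would be larger than one. -/
theorem derange {P X : Type} [Group P] [Finite P] [Finite X] (α : P →* Equiv.Perm X)
    (htr : ∀ x y : X, ∃ p, α p x = y) (h2 : 2 ≤ Nat.card X) : ∃ σ : P, ∀ x, α σ x ≠ x := by
  classical
  have _ := Fintype.ofFinite P
  have _ := Fintype.ofFinite X
  by_contra hcon
  push Not at hcon
  have hX : (2 : ℝ) ≤ Fintype.card X := by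
    rw [Nat.card_eq_fintype_card] at h2
    exact_mod_cast h2
  have h1 : mn (fun g : P => ∑ x : X, ind ((α g)⁻¹ x = x)) = 1 := by
    rw [mn_sum Finset.univ (fun (x : X) (g : P) => ind ((α g)⁻¹ x = x))]
    have h3 : ∀ x : X, mn (fun g : P => ind ((α g)⁻¹ x = x)) = ((Fintype.card X : ℝ))⁻¹ := by
      intro x
      rw [mn_tr α htr x (fun y => ind (y = x)), mn, Finset.sum_eq_single x, ind_true rfl, mul_one]
      · intro y _ hy
        exact ind_false hy
      · intro hx
        exact absurd (Finset.mem_univ x) hx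
    rw [Finset.sum_congr rfl fun x _ => h3 x, Finset.sum_const, Finset.card_univ, nsmul_eq_mul,
      mul_inv_cancel₀ (by linarith)]
  have h3 : ∀ g : P, 0 ≤ (∑ x : X, ind ((α g)⁻¹ x = x)) - 1 := by
    intro g
    obtain ⟨x, hx⟩ := hcon g
    have h4 : (α g)⁻¹ x = x := by
      rw [Equiv.Perm.inv_eq_iff_eq]
      exact hx.symm
    have h5 := Finset.single_le_sum (f := fun x : X => ind ((α g)⁻¹ x = x))
      (fun _ _ => ind_nonneg _) (Finset.mem_univ x)
    rw [ind_true h4] at h5
    linarith
  have h4 : ∑ g : P, ((∑ x : X, ind ((α g)⁻¹ x = x)) - 1) = 0 := by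
    have h5 : mn (fun g : P => (∑ x : X, ind ((α g)⁻¹ x = x)) - 1) = 0 := by
      rw [mn_sub, h1, mn_const, sub_self]
    rw [mn] at h5
    rcases mul_eq_zero.1 h5 with h6 | h6
    · exact absurd h6 (inv_ne_zero (by exact_mod_cast Fintype.card_ne_zero))
    · exact h6
  have h5 := (Finset.sum_eq_zero_iff_of_nonneg fun g _ => h3 g).1 h4 1 (Finset.mem_univ 1)
  have h6 : ∑ x : X, ind ((α (1 : P))⁻¹ x = x) = Fintype.card X := by
    rw [Finset.sum_congr rfl (g := fun _ => (1 : ℝ)) fun x _ => ind_true (by simp),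
      Finset.sum_const, Finset.card_univ, nsmul_eq_mul, mul_one]
  rw [h6] at h5
  linarith

/-- Every function is a commutator with `σ` up to a function with small support.

Proof. Let `A` be maximal among the sets with `A ∩ σ A = ∅` (`σ A` is the image). Every `x` has `j
: ℕ` with `(σ⁻¹) ^ j x ∈ A`: otherwise `A ∪ {x}` has the same property (`σ x ≠ x`; `σ x` and `σ⁻¹
x` are of the form `(σ⁻¹) ^ j x`, `σ` has finite order). Let `j x` be minimal (`Nat.find`) and
`f₁ x = f x * f (σ⁻¹ x) * … * f ((σ⁻¹) ^ (j x - 1) x)`; `f₁ x = f x * f₁ (σ⁻¹ x)` for `x ∉ A`. Put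
`f' x = f x * f₁ (σ⁻¹ x) * (f₁ x)⁻¹`. -/
theorem push {X : Type} [Finite X] (σ : Equiv.Perm X) (hσ : ∀ x, σ x ≠ x) :
    ∃ A : Set X, (∀ x ∈ A, σ x ∉ A) ∧ ∀ (G : Type) [Group G] (f : X → G),
      ∃ f₁ f' : X → G, (∀ x, x ∉ A → f' x = 1) ∧ ∀ x, f x = f' x * (f₁ x * (f₁ (σ⁻¹ x))⁻¹) := by
  classical
  obtain ⟨A, hA⟩ := (Set.toFinite {A : Set X | ∀ x ∈ A, σ x ∉ A}).exists_maximal
    ⟨∅, fun x hx => absurd hx (Set.notMem_empty x)⟩
  have hQ : ∀ x ∈ A, σ x ∉ A := hA.1
  have hord : 0 < orderOf σ := orderOf_pos σ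
  have hex : ∀ x : X, ∃ j : ℕ, (σ⁻¹ ^ j) x ∈ A := by
    intro x
    by_contra hcon
    push Not at hcon
    have h0 : x ∉ A := by
      have := hcon 0
      rwa [pow_zero, Equiv.Perm.one_apply] at this
    have h1 : ∀ y ∈ insert x A, σ y ∉ insert x A := by
      intro y hy hy2
      rcases Set.mem_insert_iff.1 hy with h | h
      · rw [h] at hy2
        rcases Set.mem_insert_iff.1 hy2 with h' | h'
        · exact hσ x h'
        · refine hcon (orderOf σ - 1) ?_
          have e1 : σ⁻¹ ^ (orderOf σ - 1) = σ := by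
            have e2 : σ⁻¹ ^ (orderOf σ - 1) * σ⁻¹ = 1 := by
              rw [← pow_succ, Nat.sub_add_cancel hord, inv_pow, pow_orderOf_eq_one, inv_one]
            have e3 := congrArg (fun τ => τ * σ) e2
            simpa using e3
          rw [e1]
          exact h'
      · rcases Set.mem_insert_iff.1 hy2 with h' | h'
        · refine hcon 1 ?_
          rw [pow_one, ← h']
          have e1 : σ⁻¹ (σ y) = y := σ.symm_apply_apply y
          rw [e1]
          exact h
        · exact hQ y h h'
    exact h0 (hA.2 h1 (Set.subset_insert x A) (Set.mem_insert x A))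
  refine ⟨A, hQ, fun G _ f => ?_⟩
  let F : ℕ → X → G := fun j => Nat.rec (fun _ => 1) (fun _ F x => f x * F (σ⁻¹ x)) j
  have hF : ∀ j x, F (j + 1) x = f x * F j (σ⁻¹ x) := fun j x => rfl
  have hj : ∀ x, x ∉ A → Nat.find (hex x) = Nat.find (hex (σ⁻¹ x)) + 1 := by
    intro x hx
    have hx0 : Nat.find (hex x) ≠ 0 := by
      intro h
      have h1 := Nat.find_spec (hex x)
      rw [h, pow_zero, Equiv.Perm.one_apply] at h1
      exact hx h1
    obtain ⟨k, hk⟩ := Nat.exists_eq_succ_of_ne_zero hx0
    have e : ∀ j : ℕ, (σ⁻¹ ^ j) (σ⁻¹ x) = (σ⁻¹ ^ (j + 1)) x := fun j => by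
      rw [pow_succ, Equiv.Perm.mul_apply]
    apply le_antisymm
    · refine Nat.find_min' (hex x) ?_
      rw [← e]
      exact Nat.find_spec (hex (σ⁻¹ x))
    · rw [hk, Nat.succ_eq_add_one, Nat.add_le_add_iff_right]
      refine Nat.find_min' (hex (σ⁻¹ x)) ?_
      rw [e]
      have h1 := Nat.find_spec (hex x)
      rw [hk] at h1
      exact h1
  refine ⟨fun x => F (Nat.find (hex x)) x,
    fun x => f x * F (Nat.find (hex (σ⁻¹ x))) (σ⁻¹ x) * (F (Nat.find (hex x)) x)⁻¹,
    fun x hx => ?_, fun x => by group⟩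
  simp only
  rw [hj x hx, hF, mul_inv_cancel]

/-- The width of a wreath product.

Proof. If `I` is empty, `Wr α G` is isomorphic to `P` (`Wd.mono`). Otherwise let `i` be the
element of `I`, `σ` from `derange` for `α i`, `A` from `push`. Work in `W = Wr α G`; `inl`, `inr`.
Let `F : ∀ i, X i → G i`. With `f = F i`: `F = F' * (F₁ * (wrAct α G σ F₁)⁻¹)`, so
`inl F = inl F' * cm (inl F₁) (inr σ)`. Every `f' x` (`x ∈ A`) is `a x * b x` with `CP (m + 2)`
factors (`CP.split`, `2 m + 4 = (m + 2) + (m + 2)`), `a = b = 1` outside `A`. With `S = wrAct α G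
σ`: `inl b = cm (inl b) (inr σ) * inl (S b)`, so
`inl F' = (inl a * cm (inl b) (inr σ) * (inl a)⁻¹) * inl (a * S b)`, and the value of `a * S b` at
`x` is `a x` (`x ∈ A`, since `σ⁻¹ x ∉ A`), `b (σ⁻¹ x)` (`x ∈ σ A`, `x ∉ A`) or `1`: `CP (m + 2)`
at every `x`, so `CP (m + 2)` (`cp_pi`, `CP.map`). Total for `inl F * inr p`:
`1 + (m + 2) + 1 + m = 2 m + 4`. -/
theorem wd_wr {P I : Type} [Group P] [Finite P] [Subsingleton I] {X : I → Type}
    [∀ i, Finite (X i)] (α : ∀ i, P →* Equiv.Perm (X i)) (hα : Tr α)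
    (h2 : ∀ i, 2 ≤ Nat.card (X i)) (G : I → Type) [∀ i, Group (G i)] {m : ℕ} (hP : Wd m P)
    (hG : ∀ i, Wd (2 * m + 4) (G i)) : Wd (2 * m + 4) (Wr α G) := by
  classical
  have key : ∀ F : ∀ i, X i → G i,
      CP (1 + (m + 2) + 1) (SemidirectProduct.inl (φ := wrAct α G) F) := by
    intro F
    rcases isEmpty_or_nonempty I with hI | ⟨⟨i₀⟩⟩
    · have h1 : F = 1 := funext fun i => (hI.false i).elim
      rw [h1, map_one]
      exact cp_one _
    obtain ⟨σ, hσ₀⟩ := derange (α i₀) (hα i₀) (h2 i₀)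
    have hσ : ∀ i, ∀ x, α i σ x ≠ x := by
      intro i
      obtain rfl : i = i₀ := Subsingleton.elim _ _
      exact hσ₀
    choose A hA hpush using fun i => push (α i σ) (hσ i)
    choose F₁ F' hF' hF using fun i => hpush i (G i) (F i)
    have hcm : ∀ f : ∀ i, X i → G i, SemidirectProduct.inl (φ := wrAct α G)
        (f * (wrAct α G σ f)⁻¹) = cm (SemidirectProduct.inl f) (SemidirectProduct.inr σ) := by
      intro f
      rw [map_mul, map_inv, SemidirectProduct.inl_aut, cm, map_inv]
      group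
    have e1 : F = F' * (F₁ * (wrAct α G σ F₁)⁻¹) := by
      funext i x
      exact hF i x
    have hab : ∀ i x, ∃ a b : G i, CP (m + 2) a ∧ CP (m + 2) b ∧ F' i x = a * b ∧
        (x ∉ A i → a = 1 ∧ b = 1) := by
      intro i x
      by_cases hx : x ∈ A i
      · have h1 : CP ((m + 2) + (m + 2)) (F' i x) := by
          have h3 : (m + 2) + (m + 2) = 2 * m + 4 := by ring
          rw [h3]
          exact hG i _
        obtain ⟨a, b, ha, hb, he⟩ := h1.split
        exact ⟨a, b, ha, hb, he, fun h => absurd hx h⟩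
      · exact ⟨1, 1, cp_one _, cp_one _, by rw [hF' i x hx, mul_one], fun _ => ⟨rfl, rfl⟩⟩
    choose a b ha hb hab hout using hab
    have e2 : F' = a * b := by
      funext i x
      exact hab i x
    have e3 : SemidirectProduct.inl (φ := wrAct α G) F' =
        (SemidirectProduct.inl a * cm (SemidirectProduct.inl b) (SemidirectProduct.inr σ) *
          (SemidirectProduct.inl a)⁻¹) * SemidirectProduct.inl (a * wrAct α G σ b) := by
      rw [← hcm b, e2, map_mul, map_mul, map_mul, map_inv]
      group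
    have h4 : CP (m + 2) (a * wrAct α G σ b) := by
      refine cp_pi fun i => cp_pi fun x => ?_
      have e4 : (a * wrAct α G σ b) i x = a i x * b i ((α i σ)⁻¹ x) := rfl
      rw [e4]
      by_cases hx : x ∈ A i
      · have h5 : (α i σ)⁻¹ x ∉ A i := by
          intro h
          have h6 := hA i _ h
          have e5 : α i σ ((α i σ)⁻¹ x) = x := (α i σ).apply_symm_apply x
          rw [e5] at h6
          exact h6 hx
        rw [(hout i _ h5).2, mul_one]
        exact ha i x
      · rw [(hout i x hx).1, one_mul]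
        exact hb i _
    rw [e1, map_mul, hcm, e3]
    exact (((cp_cm _ _).conj _).mul (h4.map _)).mul (cp_cm _ _)
  intro w
  have h1 := (key w.left).mul ((hP w.right).map (SemidirectProduct.inr (φ := wrAct α G)))
  rw [SemidirectProduct.inl_left_mul_inr_right] at h1
  exact h1.mono (by omega)

/-- All towers have width at most `2 m + 4`.

Proof. Induction on the derivation (`FExpd` gives the finiteness of `P`). -/
theorem Tw.wd {k m : ℕ} {κ : ℝ} {h : ℕ} {G : Type} {inst : Group G}
    (hG : Tw k m κ h G inst) : Wd (2 * m + 4) G := by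
  induction hG with
  | base h G inst hG hw => exact hw.mono (by omega)
  | step h P instP hP hw I hI X hX h2 α hα G instG hG ih =>
    obtain ⟨_, hf, _⟩ := hP
    have hf' : Finite P := inferInstance
    exact wd_wr α hα h2 G hw ih
  | iso h G H instG instH e hG ih => exact ih.iso e

end Pool.Agent.MPfe8e9bU
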