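import Mathlib
import Pool.Agent.Lib.MP_fe8e9b_al.Vert
import Pool.Agent.Lib.MP_fe8e9b_al_W.Cheeg
import Pool.Agent.Lib.MP_fe8e9b_al_U.Wid
import Pool.Agent.Lib.MP_fe8e9b_al_U.Spl3
import Pool.Agent.Lib.MP_fe8e9b_al_U.Crd3
import Pool.Agent.Lib.MP_fe8e9b_al_U.Bt3

/-!
# MP_fe8e9b_al, iterated wreath products over all transitive actions: class and main theorem
-/

set_option autoImplicit false

open scoped BigOperators

namespace Pool.Agent.MPfe8e9bU

open Pool.Agent.MPfe8e9b Pool.Agent.MPfe8e9bA Pool.Agent.MPfe8e9bW Pool.Agent.MPfe8e9bV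

open scoped Pointwise

/-- The action of `P` on the functions on a `P`-set. -/
def pAct {P X : Type} [Group P] (α : P →* Equiv.Perm X) (G : Type) [Group G] :
    P →* MulAut (X → G) where
  toFun p :=
    { toFun := fun f x => f ((α p)⁻¹ x)
      invFun := fun f x => f (α p x)
      left_inv := fun f => by
        funext x
        simp
      right_inv := fun f => by
        funext x
        simp
      map_mul' := fun _ _ => rfl }
  map_one' := by
    ext f x
    simp
  map_mul' a b := by
    ext f x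
    simp

/-- The smallest class of groups, closed under isomorphism, which contains the groups with vertex
expansion `ε` for `k` elements in which every element is a product of `m` commutators, and the
wreath products `G ^ X ⋊ P` of groups `G` of the class with such groups `P` and transitive
`P`-sets `X` with at least two elements. -/
inductive AllTowers (k m : ℕ) (ε : ℝ) : (G : Type) → Group G → Prop
  | base (G : Type) (inst : Group G) (hw : Wd m G) (hG : VExp k ε G) :
      AllTowers k m ε G inst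
  | step (P : Type) (instP : Group P) (hw : Wd m P) (hP : VExp k ε P) (X : Type)
      (hX : Finite X) (h2 : 2 ≤ Nat.card X) (α : P →* Equiv.Perm X)
      (hα : ∀ x y : X, ∃ p : P, α p x = y) (G : Type) (instG : Group G)
      (hG : AllTowers k m ε G instG) :
      AllTowers k m ε ((X → G) ⋊[pAct α G] P) inferInstance
  | iso (G H : Type) (instG : Group G) (instH : Group H) (e : G ≃* H)
      (hG : AllTowers k m ε G instG) : AllTowers k m ε H instH

/-- The groups of the class are towers.

Proof. `κ = ε ^ 2 / (4 (k + 1))` (`vexp_fexpd`), `Wd.perfect`. Induction on the derivation; for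
`step`, `(X → G) ⋊ P` is isomorphic to `Wr (I := Unit) (fun _ => α) (fun _ => G)`. -/
theorem all_tw {k m : ℕ} {ε : ℝ} (hε : 0 < ε) {G : Type} {inst : Group G}
    (hG : AllTowers k m ε G inst) :
    ∃ h, Tw k m (ε ^ 2 / (4 * ((k : ℝ) + 1))) h G inst := by
  induction hG with
  | base G inst hw hG => exact ⟨0, Tw.base 0 G inst ⟨hw.perfect, vexp_fexpd hε hG⟩ hw⟩
  | step P instP hw hP X hX h2 α hα G instG _ ih =>
    obtain ⟨h, hh⟩ := ih
    have e : Wr (fun _ : Unit => α) (fun _ : Unit => G) ≃* ((X → G) ⋊[pAct α G] P) :=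
      SemidirectProduct.congr (MulEquiv.funUnique Unit (X → G)) (MulEquiv.refl P) (fun p => by
        ext f x
        rfl)
    exact ⟨h + 1, Tw.iso (h + 1) _ _ _ _ e (Tw.step h P instP
      ⟨hw.perfect, vexp_fexpd hε hP⟩ hw Unit inferInstance (fun _ => X) (fun _ => hX)
      (fun _ => h2) (fun _ => α) (fun _ => hα) (fun _ => G) (fun _ => instG) (fun _ => hh))⟩
  | iso G H instG instH e _ ih =>
    obtain ⟨h, hh⟩ := ih
    exact ⟨h, Tw.iso h G H instG instH e hh⟩

theorem main3_tw_le {k m : ℕ} {κ : ℝ} {h h' : ℕ} (hh : h ≤ h') {W : Type}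
    {inst : Group W} (hW : Tw k m κ h W inst) : Tw k m κ h' W inst := by
  induction hh with
  | refl => exact hW
  | step _ ih => exact ih.succ

theorem main3_zero {k m : ℕ} {κ : ℝ} {c₀ : ℕ}
    (hc₀ : ∀ (G : Type) [Group G], FExpd G k κ → Cost c₀ G) {h : ℕ} {W : Type}
    {inst : Group W} (hW : Tw k m κ h W inst) : h = 0 → Cost c₀ W := by
  induction hW with
  | base h G inst hG hw => intro _; exact hc₀ G hG.2
  | step h P instP hP hw I hI X hX h2 α hα G instG hG ih => intro h0; omega
  | iso h G H instG instH e hG ih => intro h0; exact Cost.iso e (ih h0)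

theorem main3_succ {k m : ℕ} {κ : ℝ} {c₀ : ℕ}
    (hc₀ : ∀ (G : Type) [Group G], FExpd G k κ → Cost c₀ G) {n c c'' : ℕ}
    (hc : ∀ (W : Type) (inst : Group W), Tw k m κ n W inst → Cost c W)
    (hc'' : ∀ (P I : Type) [Group P] [Subsingleton I] (X : I → Type) [∀ i, Finite (X i)]
      (α : ∀ i, P →* Equiv.Perm (X i)), Tr α → ∀ (G : I → Type) [∀ i, Group (G i)],
      (∀ i, commutator (G i) = ⊤) → (∀ i, Wd (2 * m + 4) (G i)) → (∀ i, Cost c (G i)) →
      Cost c₀ P → Cost c'' (Wr α G)) {h : ℕ} {W : Type}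
    {inst : Group W} (hW : Tw k m κ h W inst) : h = n + 1 → Cost (max c₀ c'') W := by
  induction hW with
  | base h G inst hG hw => intro _; exact (hc₀ G hG.2).mono (le_max_left _ _)
  | step h P instP hP hw I hI X hX h2 α hα G instG hG ih =>
    intro h0
    have hn : h = n := by omega
    subst hn
    exact (hc'' P I X α hα G (fun i => (hG i).perfect) (fun i => (hG i).wd)
      (fun i => hc (G i) (instG i) (hG i)) (hc₀ P hP.2)).mono (le_max_right _ _)
  | iso h G H instG instH e hG ih => intro h0; exact Cost.iso e (ih h0)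

/-- Uniform bounds for all towers.

Proof. `M = 2 m + 4`, `C₀`, `C₁` from `reset3 M`; `Bd h c`: all groups of `Tw k m κ h` have `Cost
c`. `boot3`: `hmono` is `Cost.mono`, `hdown` is `Tw.succ`; `hex` by induction on `h` as
`bd_exists` in W/Boot with `crude3` (`Tw.wd`, `Tw.perfect`); `hadd` as `bd_add` in W/Boot with
`split3`, `Tr.ind`, `reset3` for `b` (write `b = b' + 1`). -/
theorem tw_cost (k m : ℕ) {κ : ℝ} (hκ : 0 < κ) : ∃ c : ℕ, ∀ (h : ℕ) (W : Type)
    (inst : Group W), Tw k m κ h W inst → Cost c W := by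
  obtain ⟨C₀, C₁, hC₁, hres⟩ := reset3 (2 * m + 4) (by omega)
  refine boot3 (fun h c => ∀ (W : Type) (inst : Group W), Tw k m κ h W inst → Cost c W)
    C₀ C₁ hC₁ ?_ ?_ ?_ ?_ |>.imp fun c hc h W inst hW => hc h W inst hW
  · intro h c c' hcc hB W inst hW
    exact (hB W inst hW).mono hcc
  · intro h h' c hh hB W inst hW
    exact hB W inst (main3_tw_le hh hW)
  · intro h
    obtain ⟨c₀, hc₀⟩ := exists_cost k hκ
    induction h with
    | zero => exact ⟨c₀, fun W inst hW => main3_zero hc₀ hW rfl⟩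
    | succ h ih =>
      obtain ⟨c, hc⟩ := ih
      obtain ⟨c'', hc''⟩ := crude3 hres hC₁ c c₀
      exact ⟨max c₀ c'', fun W inst hW => main3_succ hc₀ hc hc'' hW rfl⟩
  · intro a b c c' hb0 hbc ha hb W inst hW
    obtain ⟨b', rfl⟩ : ∃ b', b = b' + 1 := ⟨b - 1, by omega⟩
    obtain ⟨B, instB, I, hI, X, hX, α, A, instA, hB, hα, hcard, hA, ⟨e⟩⟩ :=
      split3 a b' W inst hW
    have h1 : Cost (c' + C₀) (Wr α A) := hres c (b' + 1) c' B I X α hα.ind A
      (fun i => (hA i).perfect) (fun i => (hA i).wd)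
      (fun i => ha (A i) (instA i) (hA i)) (hb B instB hB) hcard hbc
    exact Cost.iso e.symm h1

/-- The main theorem.

Proof. `all_tw`, `tw_cost`, `Cost.fexpd`, `expd_vertex` as in `wreath_main` of W/Main. -/
theorem all_main (k m : ℕ) {ε : ℝ} (hε : 0 < ε) :
    ∃ (k' : ℕ) (ε' : ℝ), 0 < ε' ∧ ∀ (G : Type) [inst : Group G] [Fintype G] [DecidableEq G],
      AllTowers k m ε G inst →
      ∃ S : Finset G, S.card ≤ k' ∧ Subgroup.closure (S : Set G) = ⊤ ∧
        ∀ A : Finset G, 2 * A.card ≤ Fintype.card G →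
          (1 + ε') * (A.card : ℝ) ≤ ((A ∪ S * A).card : ℝ) := by
  obtain ⟨c, hc⟩ := tw_cost k m (κ := ε ^ 2 / (4 * ((k : ℝ) + 1))) (by positivity)
  refine ⟨2 ^ c, (1 / 2 ^ c) / (4 * (((2 ^ c : ℕ) : ℝ) + 1)), by positivity, ?_⟩
  intro G inst _ _ hG
  obtain ⟨h, hh⟩ := all_tw hε hG
  have h2 : FExpd G (2 ^ c) (1 / 2 ^ c) := (hc h G inst hh).fexpd
  exact expd_vertex (by positivity) h2.expd

end Pool.Agent.MPfe8e9bU
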